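import Mathlib

set_option autoImplicit false

open Topology Filter Set

namespace Pool.CpExtent

/-- the union of the neighbourhoods `N y`, `y ∈ D` -/
def NN {Y : Type*} (N : Y → Set Y) (D : Set Y) : Set Y := ⋃ y ∈ D, N y

lemma mem_NN {Y : Type*} {N : Y → Set Y} {D : Set Y} {z : Y} : z ∈ NN N D ↔ ∃ y ∈ D, z ∈ N y := by
  simp [NN]

lemma NN_mono {Y : Type*} {N : Y → Set Y} {D D' : Set Y} (h : D ⊆ D') : NN N D ⊆ NN N D' := by
  intro z hz
  obtain ⟨y, hy, hz⟩ := mem_NN.mp hz
  exact mem_NN.mpr ⟨y, h hy, hz⟩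

/-- An abstract form of the construction of closed discrete kernels.  `N` is a neighbourhood
assignment, `Z F j` are countably many (for each finite set `F`) `N`-close sets such that every
point in the closure of `A` lies in some `Z F j` with `F ⊆ A`.  If all closed discrete sets are
countable, then countably many `N y` cover the space. -/
theorem exists_countable_kernel {Y : Type*} [TopologicalSpace Y] [T1Space Y] (N : Y → Set Y)
    (hNo : ∀ y, IsOpen (N y)) (hNm : ∀ y, y ∈ N y) {J : Type*} [Countable J]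
    (Z : Finset Y → J → Set Y) (hclose : ∀ F j, ∀ z ∈ Z F j, ∀ z' ∈ Z F j, z ∈ N z')
    (hgood : ∀ A : Set Y, ∀ h ∈ closure A, ∃ F : Finset Y, F.Nonempty ∧ ↑F ⊆ A ∧ ∃ j, h ∈ Z F j)
    (hext : ∀ D : Set Y, (∀ T ⊆ D, IsClosed T) → D.Countable) :
    ∃ C : Set Y, C.Countable ∧ NN N C = univ := by
  classical
  -- good sets
  let good : Set Y → Prop := fun D => (∀ T ⊆ D, IsClosed T) ∧
    ∀ F : Finset Y, F.Nonempty → ↑F ⊆ D → ∀ j, Z F j ⊆ NN N D
  let le : Set Y → Set Y → Prop := fun D D' => D ⊆ D' ∧ ∀ y ∈ D', y ∉ D → y ∉ NN N D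
  have hle_trans : ∀ {a b c : {D : Set Y // good D}}, le a.1 b.1 → le b.1 c.1 → le a.1 c.1 := by
    rintro ⟨a, ha⟩ ⟨b, hb⟩ ⟨c, hc⟩ ⟨h1, h2⟩ ⟨h3, h4⟩
    refine ⟨h1.trans h3, fun y hy hya => ?_⟩
    by_cases hyb : y ∈ b
    · exact h2 y hyb hya
    · exact fun h => h4 y hy hyb (NN_mono h1 h)
  obtain ⟨⟨D, hD⟩, hmax⟩ := exists_maximal_of_chains_bounded
    (r := fun a b : {D : Set Y // good D} => le a.1 b.1) (by
      intro c hc
      -- union of a chain
      have hfin : ∀ F : Finset Y, F.Nonempty → (F : Set Y) ⊆ (⋃ D ∈ c, (D : Set Y)) →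
          ∃ D ∈ c, (F : Set Y) ⊆ (D : Set Y) := by
        intro F hF
        induction hF using Finset.Nonempty.cons_induction with
        | singleton a =>
          intro h
          have : a ∈ ⋃ D ∈ c, (D : Set Y) := h (by simp)
          simp only [mem_iUnion] at this
          obtain ⟨D, hDc, ha⟩ := this
          exact ⟨D, hDc, by simpa using ha⟩
        | cons a s ha hs ih =>
          intro h
          obtain ⟨D1, hD1, hs1⟩ := ih (fun x hx => h (by simp at hx ⊢; exact Or.inr hx))
          have : a ∈ ⋃ D ∈ c, (D : Set Y) := h (by simp)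
          simp only [mem_iUnion] at this
          obtain ⟨D2, hD2, ha2⟩ := this
          by_cases hEq : D1 = D2
          · subst hEq
            refine ⟨D1, hD1, ?_⟩
            intro x hx
            simp only [Finset.coe_cons, mem_insert_iff, Finset.mem_coe] at hx
            rcases hx with rfl | hx
            · exact ha2
            · exact hs1 hx
          · rcases hc hD1 hD2 hEq with h12 | h21
            · refine ⟨D2, hD2, ?_⟩
              intro x hx
              simp only [Finset.coe_cons, mem_insert_iff, Finset.mem_coe] at hx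
              rcases hx with rfl | hx
              · exact ha2
              · exact h12.1 (hs1 hx)
            · refine ⟨D1, hD1, ?_⟩
              intro x hx
              simp only [Finset.coe_cons, mem_insert_iff, Finset.mem_coe] at hx
              rcases hx with rfl | hx
              · exact h21.1 ha2
              · exact hs1 hx
      have hsub : ∀ D ∈ c, (D : Set Y) ⊆ ⋃ D ∈ c, (D : Set Y) := fun D hDc x hx => by
        simp only [mem_iUnion]
        exact ⟨D, hDc, hx⟩
      have hkey : ∀ D ∈ c, ∀ y ∈ ⋃ D ∈ c, (D : Set Y), y ∉ (D : Set Y) →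
          y ∉ NN N (D : Set Y) := by
        intro D hDc y hy hyD
        simp only [mem_iUnion] at hy
        obtain ⟨D', hD'c, hyD'⟩ := hy
        have hne : D ≠ D' := by
          rintro rfl; exact hyD hyD'
        rcases hc hDc hD'c hne with h1 | h1
        · exact h1.2 y hyD' hyD
        · exact absurd (h1.1 hyD') hyD
      refine ⟨⟨⋃ D ∈ c, (D : Set Y), ?_, ?_⟩, fun D hDc => ⟨hsub D hDc, hkey D hDc⟩⟩
      · intro T hT
        refine isClosed_of_closure_subset fun h hh => ?_
        obtain ⟨F, hFn, hFT, j, hj⟩ := hgood T h hh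
        obtain ⟨D, hDc, hFD⟩ := hfin F hFn (hFT.trans hT)
        obtain ⟨y, hy, hhy⟩ := mem_NN.mp (D.2.2 F hFn hFD j hj)
        have h1 : h ∈ closure (T ∩ N y) := by
          rw [mem_closure_iff_nhds] at hh ⊢
          intro t ht
          obtain ⟨x, hx⟩ := hh (t ∩ N y) (inter_mem ht ((hNo y).mem_nhds hhy))
          exact ⟨x, hx.1.1, hx.2, hx.1.2⟩
        have h2 : T ∩ N y ⊆ (D : Set Y) := by
          rintro x ⟨hxT, hxN⟩
          by_contra hxD
          exact hkey D hDc x (hT hxT) hxD (mem_NN.mpr ⟨y, hy, hxN⟩)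
        rw [(D.2.1 _ h2).closure_eq] at h1
        exact h1.1
      · intro F hFn hFU j
        obtain ⟨D, hDc, hFD⟩ := hfin F hFn hFU
        exact (D.2.2 F hFn hFD j).trans (NN_mono (hsub D hDc))) (@hle_trans)
  have hDc : D.Countable := hext D hD.1
  refine ⟨D, hDc, ?_⟩
  by_contra hne
  obtain ⟨y0, hy0⟩ : ∃ y0, y0 ∉ NN N D := by
    by_contra hcon
    push Not at hcon
    exact hne (eq_univ_of_forall hcon)
  have : Countable D := hDc.to_subtype
  have hJ : Nonempty J := by
    obtain ⟨F, _, _, j, _⟩ := hgood {y0} y0 (subset_closure rfl)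
    exact ⟨j⟩
  obtain ⟨e, he⟩ := exists_surjective_nat (Finset D × Finset ℕ × J)
  -- the finite set handled at stage `n`, given the current sequence
  let FF : ℕ → (ℕ → Y) → Finset Y := fun n s =>
    ((e (Nat.unpair n).2).1.image (fun d : D => (d : Y))) ∪
      ((e (Nat.unpair n).2).2.1.filter (· ≤ n)).image s
  let NX : ℕ → (ℕ → Y) → Y := fun n s =>
    if h : ∃ z ∈ Z (FF n s) (e (Nat.unpair n).2).2.2, z ∉ NN N (D ∪ s '' Iic n) then h.choose
    else s 0
  let S : ℕ → (ℕ → Y) := fun n => Nat.rec (fun _ => y0) (fun n s => Function.update s (n + 1) (NX n s)) n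
  have hS0 : S 0 = fun _ => y0 := rfl
  have hS1 : ∀ n, S (n + 1) = Function.update (S n) (n + 1) (NX n (S n)) := fun n => rfl
  let g : ℕ → Y := fun n => S n n
  have hSg : ∀ m, ∀ i ≤ m, S m i = g i := by
    intro m
    induction m with
    | zero => intro i hi; obtain rfl := Nat.le_zero.mp hi; rfl
    | succ m ih =>
      intro i hi
      rcases Nat.lt_or_ge i (m + 1) with h | h
      · rw [hS1, Function.update_of_ne (by omega)]
        exact ih i (by omega)
      · obtain rfl : i = m + 1 := by omega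
        rfl
  have himg : ∀ n, S n '' Iic n = g '' Iic n := fun n => image_congr fun i hi => hSg n i hi
  have hFF : ∀ n, FF n (S n) = ((e (Nat.unpair n).2).1.image (fun d : D => (d : Y))) ∪
      ((e (Nat.unpair n).2).2.1.filter (· ≤ n)).image g := by
    intro n
    simp only [FF]
    congr 1
    refine Finset.image_congr ?_
    intro i hi
    simp only [Finset.coe_filter, mem_ofPred_eq] at hi
    exact hSg n i hi.2
  have hg0 : g 0 = y0 := rfl
  have hgs : ∀ n, g (n + 1) = NX n (S n) := by
    intro n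
    show S (n + 1) (n + 1) = _
    rw [hS1, Function.update_self]
  have hg0' : ∀ n, S n 0 = y0 := fun n => (hSg n 0 (Nat.zero_le _)).trans hg0
  -- either an old point or a point outside the earlier neighbourhoods
  have hβ : ∀ n, g (n + 1) ∈ g '' Iic n ∨ g (n + 1) ∉ NN N (D ∪ g '' Iic n) := by
    intro n
    rw [hgs n]
    by_cases h : ∃ z ∈ Z (FF n (S n)) (e (Nat.unpair n).2).2.2, z ∉ NN N (D ∪ S n '' Iic n)
    · right
      have h1 : NX n (S n) = h.choose := dif_pos h
      rw [h1, ← himg n]
      exact h.choose_spec.2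
    · left
      have h1 : NX n (S n) = S n 0 := dif_neg h
      rw [h1, hg0']
      exact ⟨0, Nat.zero_le n, hg0⟩
  have hgN : ∀ n, g n ∉ NN N D := by
    intro n
    induction n using Nat.strong_induction_on with
    | _ n ih =>
      rcases n with _ | n
      · exact hy0
      · rcases hβ n with ⟨i, hi, hig⟩ | h
        · rw [← hig]; exact ih i (Nat.lt_succ_of_le hi)
        · exact fun hc => h (NN_mono subset_union_left hc)
  have hgsep : ∀ n i, g i ∈ g '' Iic n ∨ g i ∉ N (g n) := by
    intro n i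
    induction i using Nat.strong_induction_on with
    | _ i ih =>
      rcases Nat.lt_or_ge n i with h | h
      · obtain ⟨k, rfl⟩ : ∃ k, i = k + 1 := ⟨i - 1, by omega⟩
        rcases hβ k with ⟨i', hi', hig⟩ | h'
        · rw [← hig]; exact ih i' (Nat.lt_succ_of_le hi')
        · right
          intro hc
          exact h' (mem_NN.mpr ⟨g n, Or.inr ⟨n, Nat.lt_succ_iff.mp h, rfl⟩, hc⟩)
      · exact Or.inl ⟨i, h, rfl⟩
  -- all pairs are handled
  have hγ : ∀ F : Finset Y, ↑F ⊆ D ∪ range g → ∀ j, Z F j ⊆ NN N (D ∪ range g) := by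
    intro F hF j
    -- code of F
    have h1 : ∀ y ∈ F, y ∉ D → ∃ i, g i = y := fun y hy hyD => by
      rcases hF hy with h | h
      · exact absurd h hyD
      · exact h
    let idx : Y → ℕ := Function.invFun g
    have hidx : ∀ y ∈ F, y ∉ D → g (idx y) = y := fun y hy hyD =>
      Function.invFun_eq (h1 y hy hyD)
    let F1 : Finset D := F.subtype (· ∈ D)
    let I : Finset ℕ := (F.filter (· ∉ D)).image idx
    obtain ⟨l, hl⟩ := he (F1, I, j)
    let n := Nat.pair (I.sup id) l
    have hn2 : (Nat.unpair n).2 = l := by simp [n]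
    have hnI : ∀ i ∈ I, i ≤ n := fun i hi =>
      (Finset.le_sup (f := id) hi).trans (Nat.left_le_pair _ _)
    have hFn : FF n (S n) = F := by
      rw [hFF n, hn2, hl]
      ext y
      simp only [Finset.mem_union, Finset.mem_image, Finset.mem_filter, F1, Finset.mem_subtype,
        I]
      constructor
      · rintro (⟨⟨d, hd⟩, hdF, rfl⟩ | ⟨i, ⟨⟨y', ⟨hy'F, hy'D⟩, rfl⟩, _⟩, rfl⟩)
        · exact hdF
        · rw [hidx y' hy'F hy'D]; exact hy'F
      · intro hy
        by_cases hyD : y ∈ D
        · exact Or.inl ⟨⟨y, hyD⟩, hy, rfl⟩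
        · refine Or.inr ⟨idx y, ⟨⟨y, ⟨hy, hyD⟩, rfl⟩, hnI _ ?_⟩, hidx y hy hyD⟩
          simp only [I, Finset.mem_image, Finset.mem_filter]
          exact ⟨y, ⟨hy, hyD⟩, rfl⟩
    have hjn : (e (Nat.unpair n).2).2.2 = j := by rw [hn2, hl]
    intro w hw
    by_cases h : ∃ z ∈ Z (FF n (S n)) (e (Nat.unpair n).2).2.2, z ∉ NN N (D ∪ S n '' Iic n)
    · have h3 : g (n + 1) ∈ Z F j := by
        have h2 : NX n (S n) ∈ Z (FF n (S n)) (e (Nat.unpair n).2).2.2 := by
          have h2 : NX n (S n) = h.choose := dif_pos h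
          rw [h2]
          exact h.choose_spec.1
        rw [hgs n]
        generalize NX n (S n) = u at h2 ⊢
        rwa [hFn, hjn] at h2
      exact mem_NN.mpr ⟨g (n + 1), Or.inr ⟨n + 1, rfl⟩, hclose F j w hw _ h3⟩
    · push Not at h
      have h2 := h w (by rw [hFn, hjn]; exact hw)
      rw [himg n] at h2
      exact NN_mono (union_subset_union_right _ (image_subset_range _ _)) h2
  -- the extension is good
  have hD' : good (D ∪ range g) := by
    refine ⟨?_, fun F _ hF j => hγ F hF j⟩
    intro T hT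
    refine isClosed_of_closure_subset fun h hh => ?_
    obtain ⟨F, hFn, hFT, j, hj⟩ := hgood T h hh
    obtain ⟨y, hy, hhy⟩ := mem_NN.mp (hγ F (hFT.trans hT) j hj)
    have h1 : h ∈ closure (T ∩ N y) := by
      rw [mem_closure_iff_nhds] at hh ⊢
      intro t ht
      obtain ⟨x, hx⟩ := hh (t ∩ N y) (inter_mem ht ((hNo y).mem_nhds hhy))
      exact ⟨x, hx.1.1, hx.2, hx.1.2⟩
    rcases hy with hy | ⟨n, rfl⟩
    · have h2 : T ∩ N y ⊆ D := by
        rintro x ⟨hxT, hxN⟩
        rcases hT hxT with hx | ⟨i, rfl⟩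
        · exact hx
        · exact absurd (mem_NN.mpr ⟨y, hy, hxN⟩) (hgN i)
      rw [(hD.1 _ h2).closure_eq] at h1
      exact h1.1
    · have h2 : T ∩ N (g n) = (T ∩ N (g n) ∩ D) ∪ (T ∩ N (g n) ∩ g '' Iic n) := by
        rw [← inter_union_distrib_left]
        refine (inter_eq_self_of_subset_left ?_).symm
        rintro x ⟨hxT, hxN⟩
        rcases hT hxT with hx | ⟨i, rfl⟩
        · exact Or.inl hx
        · rcases hgsep n i with h' | h'
          · exact Or.inr h'
          · exact absurd hxN h'
      have h3 : IsClosed (T ∩ N (g n)) := by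
        rw [h2]
        refine (hD.1 _ inter_subset_right).union ?_
        exact (((finite_Iic n).image g).subset inter_subset_right).isClosed
      rw [h3.closure_eq] at h1
      exact h1.1
  have hleD : le D (D ∪ range g) := by
    refine ⟨subset_union_left, fun y hy hyD => ?_⟩
    rcases hy with hy | ⟨n, rfl⟩
    · exact absurd hy hyD
    · exact hgN n
  have := hmax ⟨_, hD'⟩ hleD
  have h0 : y0 ∈ D := this.1 (Or.inr ⟨0, hg0⟩)
  exact hy0 (mem_NN.mpr ⟨y0, h0, hNm y0⟩)

end Pool.CpExtent
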