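import Mathlib
import Pool.Agent.CpTheory.Extent

set_option autoImplicit false

open Topology Filter Set

namespace Pool.CpExtent

/-- `C_p(X)`: the continuous real functions on `X` with the topology of pointwise convergence. -/
abbrev Cp (X : Type*) [TopologicalSpace X] : Type _ := {f : X → ℝ // Continuous f}

section basic
variable {X : Type*} [TopologicalSpace X]

lemma continuous_eval (x : X) : Continuous fun f : Cp X => f.1 x :=
  (continuous_apply x).comp continuous_subtype_val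

lemma basic_nhd {U : Set (Cp X)} (hU : IsOpen U) {h : Cp X} (hh : h ∈ U) :
    ∃ S : Finset X, ∃ ε > 0, ∀ g : Cp X, (∀ s ∈ S, |g.1 s - h.1 s| < ε) → g ∈ U := by
  obtain ⟨V, hV, rfl⟩ := isOpen_induced_iff.mp hU
  obtain ⟨I, u, hu, hsub⟩ := isOpen_pi_iff.mp hV h.1 hh
  have h1 : ∀ᶠ ε in 𝓝[>] (0 : ℝ), ∀ a ∈ I, Metric.ball (h.1 a) ε ⊆ u a := by
    rw [Filter.eventually_all_finset]
    intro a ha
    obtain ⟨e, he, hball⟩ := Metric.isOpen_iff.mp (hu a ha).1 (h.1 a) (hu a ha).2
    filter_upwards [Ioo_mem_nhdsGT he] with ε hε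
    exact (Metric.ball_subset_ball hε.2.le).trans hball
  obtain ⟨ε, hε, hε0⟩ := (h1.and self_mem_nhdsWithin).exists
  refine ⟨I, ε, hε0, fun g hg => hsub fun a ha => hε a ha ?_⟩
  rw [Metric.mem_ball, Real.dist_eq]
  exact hg a ha

/-- a space with a countable network is Lindelöf -/
lemma lindelof_of_network {Y : Type*} [TopologicalSpace Y] (𝒩 : Set (Set Y)) (hc : 𝒩.Countable)
    (hn : ∀ (x : Y) (U : Set Y), IsOpen U → x ∈ U → ∃ N ∈ 𝒩, x ∈ N ∧ N ⊆ U) :
    LindelofSpace Y := by
  classical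
  refine ⟨isLindelof_of_countable_subcover fun {ι} U hU hcov => ?_⟩
  -- for each member of the network inside some `U i` choose such an `i`
  let 𝒩' : Set (Set Y) := {N ∈ 𝒩 | ∃ i, N ⊆ U i}
  have hch : ∀ N : 𝒩', ∃ i, N.1 ⊆ U i := fun N => N.2.2
  choose φ hφ using hch
  have : Countable 𝒩' := (hc.mono fun N hN => hN.1).to_subtype
  refine ⟨range φ, countable_range φ, fun x _ => ?_⟩
  obtain ⟨i, hi⟩ := mem_iUnion.mp (hcov (mem_univ x))
  obtain ⟨N, hN, hxN, hNU⟩ := hn x (U i) (hU i) hi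
  refine mem_iUnion₂.mpr ⟨φ ⟨N, hN, i, hNU⟩, mem_range_self _, hφ _ hxN⟩

/-- `C_p` of a space with a countable network is Lindelöf -/
lemma lindelof_Cp_of_network (𝒩 : Set (Set X)) (hc : 𝒩.Countable)
    (hn : ∀ (x : X) (U : Set X), IsOpen U → x ∈ U → ∃ N ∈ 𝒩, x ∈ N ∧ N ⊆ U) :
    LindelofSpace (Cp X) := by
  classical
  have : Countable 𝒩 := hc.to_subtype
  let W : Finset (𝒩 × ℚ × ℚ) → Set (Cp X) := fun s =>
    {f | ∀ t ∈ s, ∀ x ∈ t.1.1, (t.2.1 : ℝ) < f.1 x ∧ f.1 x < t.2.2}
  refine lindelof_of_network (range W) (countable_range W) fun f U hU hf => ?_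
  obtain ⟨S, ε, hε, hS⟩ := basic_nhd hU hf
  have hch : ∀ s : X, ∃ t : 𝒩 × ℚ × ℚ, s ∈ t.1.1 ∧
      (∀ x ∈ t.1.1, (t.2.1 : ℝ) < f.1 x ∧ f.1 x < t.2.2) ∧ f.1 s - ε < t.2.1 ∧
      (t.2.2 : ℝ) < f.1 s + ε := by
    intro s
    obtain ⟨p, hp1, hp2⟩ := exists_rat_btwn (show f.1 s - ε < f.1 s by linarith)
    obtain ⟨q, hq1, hq2⟩ := exists_rat_btwn (show f.1 s < f.1 s + ε by linarith)
    obtain ⟨N, hN, hsN, hNU⟩ := hn s (f.1 ⁻¹' Ioo (p : ℝ) q) (isOpen_Ioo.preimage f.2) ⟨hp2, hq1⟩
    exact ⟨⟨⟨N, hN⟩, p, q⟩, hsN, fun x hx => hNU hx, hp1, hq2⟩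
  choose t ht1 ht2 ht3 ht4 using hch
  refine ⟨W (S.image t), mem_range_self _, ?_, ?_⟩
  · intro u hu x hx
    obtain ⟨s, _, rfl⟩ := Finset.mem_image.mp hu
    exact ht2 s x hx
  · intro g hg
    refine hS g fun s hs => ?_
    have h1 := hg (t s) (Finset.mem_image_of_mem _ hs) s (ht1 s)
    rw [abs_lt]
    constructor
    · linarith [ht3 s, h1.1]
    · linarith [ht4 s, h1.2]

end basic

/-- Compact `X`: if all closed discrete subsets of `C_p(X)` are countable then `C_p(X)` is
Lindelöf. -/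
theorem lindelof_of_extent {X : Type*} [TopologicalSpace X] [CompactSpace X]
    (hext : ∀ D : Set (Cp X), (∀ T ⊆ D, IsClosed T) → D.Countable) : LindelofSpace (Cp X) := by
  classical
  refine ⟨isLindelof_of_countable_subcover fun {ι} U hU hcov => ?_⟩
  have hch : ∀ y : Cp X, ∃ i, y ∈ U i := fun y => mem_iUnion.mp (hcov (mem_univ y))
  choose ix hix using hch
  let N : Cp X → Set (Cp X) := fun y => U (ix y)
  let J := ℕ × (Σ k : ℕ, Fin k → ℚ)
  let r : ℕ → ℝ := fun n => 1 / ((n : ℝ) + 1)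
  have hr : ∀ n, 0 < r n := fun n => Nat.one_div_pos_of_nat
  let Z : Finset (Cp X) → J → Set (Cp X) := fun F j => {h | ∃ x : Fin j.2.1 → X,
    (∀ g : Cp X, (∀ i, |g.1 (x i) - j.2.2 i| < 2 * r j.1) → g ∈ N h) ∧
    (∀ f ∈ F, ∀ i, |f.1 (x i) - j.2.2 i| < r j.1) ∧
    (∀ y : Fin j.2.1 → X, (∀ f ∈ F, ∀ i, |f.1 (y i) - j.2.2 i| ≤ r j.1) →
      ∀ i, |h.1 (y i) - j.2.2 i| < 2 * r j.1)}
  obtain ⟨C, hC, hCU⟩ := exists_countable_kernel N (fun y => hU _) (fun y => hix y) Z (by
      rintro F j h ⟨_, _, _, h3⟩ h' ⟨x', h1', h2', _⟩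
      exact h1' h (h3 x' fun f hf i => (h2' f hf i).le)) (by
      intro A h hh
      obtain ⟨S, ε, hε, hS⟩ := basic_nhd (hU (ix h)) (hix h)
      obtain ⟨n, hn⟩ := exists_nat_one_div_lt (show (0 : ℝ) < ε / 3 by linarith)
      let k := S.card
      let x : Fin k → X := fun i => (S.equivFin.symm i : X)
      have hc : ∀ i : Fin k, ∃ c : ℚ, |h.1 (x i) - c| < r n := fun i =>
        exists_rat_near (h.1 (x i)) (hr n)
      choose c hc using hc
      -- the members of `A` close to `h` at `x`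
      let A' : Set (Cp X) := {f | f ∈ A ∧ ∀ i, |f.1 (x i) - c i| < r n}
      have hopen : ∀ (y : Fin k → X), IsOpen {f : Cp X | ∀ i, |f.1 (y i) - c i| < r n} := by
        intro y
        have : {f : Cp X | ∀ i, |f.1 (y i) - c i| < r n} =
            ⋂ i, {f : Cp X | |f.1 (y i) - c i| < r n} := by ext; simp
        rw [this]
        exact isOpen_iInter_of_finite fun i =>
          isOpen_lt ((continuous_eval (y i)).sub continuous_const).abs continuous_const
      have hne : ∃ f0, f0 ∈ A' := by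
        obtain ⟨f, hf1, hf2⟩ := mem_closure_iff.mp hh _ (hopen x) hc
        exact ⟨f, hf2, hf1⟩
      obtain ⟨f0, hf0⟩ := hne
      let K : Set (Fin k → X) := {y | ∃ i, 2 * r n ≤ |h.1 (y i) - c i|}
      have hK : IsCompact K := by
        have : K = ⋃ i, {y : Fin k → X | 2 * r n ≤ |h.1 (y i) - c i|} := by ext; simp [K]
        rw [this]
        refine (isClosed_iUnion_of_finite fun i => ?_).isCompact
        exact isClosed_le continuous_const
          (((h.2.comp (continuous_apply i)).sub continuous_const).abs)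
      have hcovK : K ⊆ ⋃ f : A', {y : Fin k → X | ∃ i, r n < |f.1.1 (y i) - c i|} := by
        rintro y ⟨i, hi⟩
        have hO : IsOpen ({f : Cp X | ∀ i, |f.1 (x i) - c i| < r n} ∩
            {f : Cp X | r n < |f.1 (y i) - c i|}) :=
          (hopen x).inter (isOpen_lt continuous_const
            ((continuous_eval (y i)).sub continuous_const).abs)
        have hmem : h ∈ ({f : Cp X | ∀ i, |f.1 (x i) - c i| < r n} ∩
            {f : Cp X | r n < |f.1 (y i) - c i|}) := by
          refine ⟨hc, ?_⟩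
          have := hr n
          show r n < |h.1 (y i) - c i|
          linarith
        obtain ⟨f, ⟨hf1, hf2⟩, hf3⟩ := mem_closure_iff.mp hh _ hO hmem
        exact mem_iUnion.mpr ⟨⟨f, hf3, hf1⟩, i, hf2⟩
      obtain ⟨t, ht⟩ := hK.elim_finite_subcover _ (fun f : A' => by
        have : {y : Fin k → X | ∃ i, r n < |f.1.1 (y i) - c i|} =
            ⋃ i, {y : Fin k → X | r n < |f.1.1 (y i) - c i|} := by ext; simp
        rw [this]
        exact isOpen_iUnion fun i => isOpen_lt continuous_const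
          (((f.1.2.comp (continuous_apply i)).sub continuous_const).abs)) hcovK
      refine ⟨insert f0 (t.image (fun f : A' => (f : Cp X))), ⟨f0, by simp⟩, ?_,
        (n, ⟨k, c⟩), x, ?_, ?_, ?_⟩
      · intro f hf
        simp only [Finset.coe_insert, Finset.coe_image, mem_insert_iff, mem_image,
          Finset.mem_coe] at hf
        rcases hf with rfl | ⟨f', _, rfl⟩
        · exact hf0.1
        · exact f'.2.1
      · intro g hg
        refine hS g fun s hs => ?_
        have h1 := hg (S.equivFin ⟨s, hs⟩)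
        have h2 := hc (S.equivFin ⟨s, hs⟩)
        have h3 : x (S.equivFin ⟨s, hs⟩) = s := by simp [x]
        rw [h3] at h1 h2
        have h4 : |g.1 s - h.1 s| ≤ |g.1 s - c (S.equivFin ⟨s, hs⟩)| +
            |h.1 s - c (S.equivFin ⟨s, hs⟩)| := by
          rw [abs_sub_comm (h.1 s)]
          exact abs_sub_le _ _ _
        have h5 : 3 * r n < ε := by
          have : r n < ε / 3 := hn
          linarith
        have h6 : |g.1 s - c (S.equivFin ⟨s, hs⟩)| < 2 * r n := h1
        linarith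
      · intro f hf i
        simp only [Finset.mem_insert, Finset.mem_image] at hf
        rcases hf with rfl | ⟨f', _, rfl⟩
        · exact hf0.2 i
        · exact f'.2.2 i
      · intro y hy
        by_contra hcon
        push Not at hcon
        have hyK : y ∈ K := hcon
        obtain ⟨f, hft, i, hi⟩ : ∃ f ∈ t, ∃ i, r n < |f.1.1 (y i) - c i| := by
          simpa using ht hyK
        have := hy f.1 (by
          simp only [Finset.mem_insert, Finset.mem_image]
          exact Or.inr ⟨f, hft, rfl⟩) i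
        exact absurd hi (not_lt.mpr this)) hext
  refine ⟨ix '' C, hC.image _, fun y _ => ?_⟩
  have : y ∈ NN N C := by rw [hCU]; trivial
  obtain ⟨z, hz, hy⟩ := mem_NN.mp this
  exact mem_iUnion₂.mpr ⟨ix z, ⟨z, hz, rfl⟩, hy⟩

/-- If `C_p(Y)` is Lindelöf and all functions on countable subsets of `D ⊆ Y` extend continuously
to `Y`, then `D` is countable. -/
theorem countable_of_embedded {Y : Type*} [TopologicalSpace Y] [LindelofSpace (Cp Y)]
    (D : Set Y) (hemb : ∀ D0 ⊆ D, D0.Countable → ∀ g : D0 → ℝ, ∃ φ : Cp Y, ∀ d : D0, φ.1 d = g d) :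
    D.Countable := by
  classical
  by_contra hD
  let U : D × D → Set (Cp Y) := fun p =>
    {φ | φ.1 p.1 ∉ range (Nat.cast : ℕ → ℝ)} ∪ {φ | φ.1 p.2 ∉ range (Nat.cast : ℕ → ℝ)} ∪
      {φ | p.1 ≠ p.2 ∧ |φ.1 p.1 - φ.1 p.2| < 1}
  have hU : ∀ p, IsOpen (U p) := by
    intro p
    have h1 : ∀ d : D, IsOpen {φ : Cp Y | φ.1 d ∉ range (Nat.cast : ℕ → ℝ)} := fun d =>
      (Nat.isClosedEmbedding_coe_real.isClosed_range.isOpen_compl).preimage (continuous_eval (d : Y))
    refine ((h1 p.1).union (h1 p.2)).union ?_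
    by_cases hp : p.1 = p.2
    · have : {φ : Cp Y | p.1 ≠ p.2 ∧ |φ.1 p.1 - φ.1 p.2| < 1} = ∅ := by
        ext φ; simp [hp]
      rw [this]; exact isOpen_empty
    · have : {φ : Cp Y | p.1 ≠ p.2 ∧ |φ.1 p.1 - φ.1 p.2| < 1} =
          {φ : Cp Y | |φ.1 p.1 - φ.1 p.2| < 1} := by
        ext φ; simp [hp]
      rw [this]
      exact isOpen_lt ((continuous_eval _).sub (continuous_eval _)).abs continuous_const
  have hcov : (univ : Set (Cp Y)) ⊆ ⋃ p, U p := by
    intro φ _
    by_contra hcon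
    simp only [mem_iUnion, not_exists] at hcon
    have hnat : ∀ d : D, ∃ n : ℕ, (n : ℝ) = φ.1 d := by
      intro d
      by_contra h
      exact hcon (d, d) (Or.inl (Or.inl h))
    choose ν hν using hnat
    have hinj : Function.Injective ν := by
      intro d d' hdd
      by_contra hne
      refine hcon (d, d') (Or.inr ⟨hne, ?_⟩)
      show |φ.1 d - φ.1 d'| < 1
      rw [← hν d, ← hν d', hdd]
      simp
    exact hD (countable_coe_iff.mp hinj.countable)
  obtain ⟨t, htc, ht⟩ := isLindelof_univ.elim_countable_subcover U hU hcov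
  let D0 : Set Y := (fun p : D × D => (p.1 : Y)) '' t ∪ (fun p : D × D => (p.2 : Y)) '' t
  have hD0 : D0 ⊆ D := by
    rintro _ (⟨p, _, rfl⟩ | ⟨p, _, rfl⟩)
    · exact p.1.2
    · exact p.2.2
  have hD0c : D0.Countable := (htc.image _).union (htc.image _)
  have : Countable D0 := hD0c.to_subtype
  obtain ⟨ν, hν⟩ := exists_injective_nat D0
  obtain ⟨φ, hφ⟩ := hemb D0 hD0 hD0c fun d => (ν d : ℝ)
  obtain ⟨p, hp, hφp⟩ := mem_iUnion₂.mp (ht (mem_univ φ))
  have h1 : (p.1 : Y) ∈ D0 := Or.inl ⟨p, hp, rfl⟩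
  have h2 : (p.2 : Y) ∈ D0 := Or.inr ⟨p, hp, rfl⟩
  have e1 : φ.1 p.1 = ν ⟨p.1, h1⟩ := hφ ⟨p.1, h1⟩
  have e2 : φ.1 p.2 = ν ⟨p.2, h2⟩ := hφ ⟨p.2, h2⟩
  rcases hφp with (h | h) | ⟨hne, hlt⟩
  · exact h ⟨_, e1.symm⟩
  · exact h ⟨_, e2.symm⟩
  · rw [e1, e2] at hlt
    have h3 : ν ⟨p.1, h1⟩ ≠ ν ⟨p.2, h2⟩ := fun h => hne (by
      have := hν h
      exact Subtype.ext (Subtype.mk.inj this))
    have h4 : (1 : ℝ) ≤ |(ν ⟨p.1, h1⟩ : ℝ) - ν ⟨p.2, h2⟩| := by
      have h5 : (1 : ℤ) ≤ |(ν ⟨p.1, h1⟩ : ℤ) - ν ⟨p.2, h2⟩| :=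
        Int.one_le_abs (sub_ne_zero.mpr (by exact_mod_cast h3))
      exact_mod_cast h5
    linarith

/-- `X` compact Hausdorff such that `C_p(F)` is normal for all separable closed `F`: countable
closed discrete subsets of `C_p(X)` are `C`-embedded. -/
theorem embedded_of_normal {X : Type*} [TopologicalSpace X] [CompactSpace X] [T2Space X]
    (hnor : ∀ A : Set X, A.Countable → NormalSpace (Cp (closure A)))
    (D0 : Set (Cp X)) (hD0 : D0.Countable) (hcl : ∀ T ⊆ D0, IsClosed T) (g : D0 → ℝ) :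
    ∃ φ : Cp (Cp X), ∀ d : D0, φ.1 d = g d := by
  classical
  have : Countable D0 := hD0.to_subtype
  let δ : X → D0 → ℝ := fun x d => d.1.1 x
  have hδ : Continuous δ := continuous_pi fun d => d.1.2
  obtain ⟨s, hs, hsd⟩ := TopologicalSpace.exists_countable_dense (range δ)
  have hpre : ∀ z : range δ, ∃ x, δ x = z := fun z => z.2
  choose pre hpre using hpre
  let B : Set X := pre '' s
  have hB : B.Countable := hs.image _
  let F : Set X := closure B
  have : NormalSpace (Cp F) := hnor B hB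
  have : CompactSpace F := isCompact_iff_compactSpace.mp isClosed_closure.isCompact
  -- every point of `X` is `δ`-equivalent to a point of `F`
  have hσ : ∀ x : X, ∃ y : F, δ y = δ x := by
    have hcomp : IsCompact (δ '' F) := isClosed_closure.isCompact.image hδ
    have h1 : range δ ⊆ δ '' F := by
      have h2 : range δ ⊆ closure (δ '' B) := by
        rintro _ ⟨x, rfl⟩
        have h3 : (⟨δ x, x, rfl⟩ : range δ) ∈ closure s := hsd _
        have h4 := image_closure_subset_closure_image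
          (continuous_subtype_val (p := (· ∈ range δ))) (mem_image_of_mem Subtype.val h3)
        refine closure_mono ?_ h4
        rintro _ ⟨z, hz, rfl⟩
        exact ⟨pre z, ⟨z, hz, rfl⟩, hpre z⟩
      exact h2.trans (hcomp.isClosed.closure_subset_iff.mpr (image_mono subset_closure))
    intro x
    obtain ⟨y, hy, hyx⟩ := h1 ⟨x, rfl⟩
    exact ⟨⟨y, hy⟩, hyx⟩
  choose σ hσ using hσ
  let ρ : Cp X → Cp F := fun f => ⟨fun y => f.1 y, f.2.comp continuous_subtype_val⟩
  have hρ : Continuous ρ := by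
    refine Continuous.subtype_mk ?_ _
    exact continuous_pi fun y => continuous_eval (y : X)
  have hinj : ∀ d ∈ D0, ∀ d' ∈ D0, ρ d = ρ d' → d = d' := by
    intro d hd d' hd' h
    refine Subtype.ext (funext fun x => ?_)
    have h1 : d.1 (σ x) = d.1 x := congrFun (hσ x) ⟨d, hd⟩
    have h2 : d'.1 (σ x) = d'.1 x := congrFun (hσ x) ⟨d', hd'⟩
    have h3 : d.1 (σ x) = d'.1 (σ x) := congrFun (congrArg Subtype.val h) (σ x)
    rw [← h1, ← h2, h3]
  -- all images of subsets of `D0` are closed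
  have hclρ : ∀ T ⊆ D0, IsClosed (ρ '' T) := by
    intro T hT
    refine isClosed_of_closure_subset fun f hf => ?_
    have hfib : ∀ x y : F, δ x = δ y → f.1 x = f.1 y := by
      intro x y hxy
      have hc : IsClosed {f : Cp F | f.1 x = f.1 y} :=
        isClosed_eq (continuous_eval x) (continuous_eval y)
      have hsub : ρ '' T ⊆ {f : Cp F | f.1 x = f.1 y} := by
        rintro _ ⟨t, ht, rfl⟩
        exact congrFun hxy ⟨t, hT ht⟩
      exact (hc.closure_subset_iff.mpr hsub) hf
    let q : C(F, range δ) := ⟨fun y => ⟨δ y, (y : X), rfl⟩,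
      Continuous.subtype_mk (hδ.comp continuous_subtype_val) _⟩
    have hqs : Function.Surjective q := by
      rintro ⟨_, x, rfl⟩
      exact ⟨σ x, Subtype.ext (hσ x)⟩
    have hquot : IsQuotientMap q := q.continuous.isClosedMap.isQuotientMap q.continuous hqs
    let L : C(range δ, ℝ) := hquot.lift ⟨f.1, f.2⟩
        (fun a b hab => hfib a b (congrArg Subtype.val hab))
    have hL : ∀ y : F, L (q y) = f.1 y := by
      intro y
      have h0 := congrArg (fun h : C(F, ℝ) => h y) (hquot.lift_comp ⟨f.1, f.2⟩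
        (fun a b hab => hfib a b (congrArg Subtype.val hab)))
      exact h0
    let f' : Cp X := ⟨fun x => L ⟨δ x, x, rfl⟩, L.continuous.comp (Continuous.subtype_mk hδ _)⟩
    have hf'F : ∀ y : F, f'.1 y = f.1 y := fun y => hL y
    have hf'σ : ∀ x : X, f'.1 x = f.1 (σ x) := by
      intro x
      rw [← hf'F (σ x)]
      show L _ = L _
      congr 1
      exact Subtype.ext (hσ x).symm
    have hmem : f' ∈ closure T := by
      rw [mem_closure_iff]
      intro U hU hfU
      obtain ⟨S, ε, hε, hS⟩ := basic_nhd hU hfU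
      have hO : IsOpen {h : Cp F | ∀ s ∈ S, |h.1 (σ s) - f.1 (σ s)| < ε} := by
        have : {h : Cp F | ∀ s ∈ S, |h.1 (σ s) - f.1 (σ s)| < ε} =
            ⋂ s ∈ S, {h : Cp F | |h.1 (σ s) - f.1 (σ s)| < ε} := by ext; simp
        rw [this]
        exact isOpen_biInter_finset fun s _ =>
          isOpen_lt ((continuous_eval (σ s)).sub continuous_const).abs continuous_const
      obtain ⟨h, hh1, t, ht, rfl⟩ := mem_closure_iff.mp hf _ hO (by
        intro s _
        simpa using hε)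
      refine ⟨t, hS t fun s hs => ?_, ht⟩
      have h1 : t.1 (σ s) = t.1 s := congrFun (hσ s) ⟨t, hT ht⟩
      rw [← h1, hf'σ s]
      exact hh1 s hs
    rw [(hcl T hT).closure_eq] at hmem
    exact ⟨f', hmem, Subtype.ext (funext hf'F)⟩
  -- Tietze
  let E : Set (Cp F) := ρ '' D0
  have hE : IsClosed E := hclρ D0 subset_rfl
  have : DiscreteTopology E := by
    rw [discreteTopology_iff_forall_isClosed]
    intro s
    have h1 : Subtype.val '' s ⊆ E := by rintro _ ⟨z, _, rfl⟩; exact z.2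
    have h2 : IsClosed (Subtype.val '' s : Set (Cp F)) := by
      have : (Subtype.val '' s : Set (Cp F)) = ρ '' {d | d ∈ D0 ∧ ρ d ∈ Subtype.val '' s} := by
        ext z
        constructor
        · intro hz
          obtain ⟨d, hd, rfl⟩ := h1 hz
          exact ⟨d, ⟨hd, hz⟩, rfl⟩
        · rintro ⟨d, ⟨_, hd⟩, rfl⟩
          exact hd
      rw [this]
      exact hclρ _ fun d hd => hd.1
    have h3 : s = Subtype.val ⁻¹' (Subtype.val '' s : Set (Cp F)) :=
      (preimage_image_eq s Subtype.val_injective).symm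
    rw [h3]
    exact h2.preimage continuous_subtype_val
  let gE : C(E, ℝ) := ⟨fun z => g ⟨z.2.choose, z.2.choose_spec.1⟩, continuous_of_discreteTopology⟩
  obtain ⟨ψ, hψ⟩ := ContinuousMap.exists_restrict_eq hE gE
  refine ⟨⟨fun f => ψ (ρ f), ψ.continuous.comp hρ⟩, fun d => ?_⟩
  have hz : ρ d ∈ E := ⟨d, d.2, rfl⟩
  have h1 : ψ (ρ d) = gE ⟨ρ d, hz⟩ := by
    rw [← hψ]; rfl
  show ψ (ρ d) = g d
  rw [h1]
  show g ⟨hz.choose, hz.choose_spec.1⟩ = g d
  congr 1
  exact Subtype.ext (hinj _ hz.choose_spec.1 _ d.2 hz.choose_spec.2)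

/-- `X` compact Hausdorff, `C_p(C_p(X))` Lindelöf and `C_p(F)` normal for all separable closed
subspaces `F` of `X`: then `C_p(X)` is Lindelöf. -/
theorem lindelof_Cp_of_normal {X : Type*} [TopologicalSpace X] [CompactSpace X] [T2Space X]
    [LindelofSpace (Cp (Cp X))]
    (hnor : ∀ A : Set X, A.Countable → NormalSpace (Cp (closure A))) :
    LindelofSpace (Cp X) :=
  lindelof_of_extent fun D hD => countable_of_embedded D fun D0 hD0 hc g =>
    embedded_of_normal hnor D0 hc (fun T hT => hD T (hT.trans hD0)) g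

/-- `X` compact Hausdorff and `ω`-monolithic, `C_p(C_p(X))` Lindelöf: then `C_p(X)` is
Lindelöf. -/
theorem lindelof_Cp_of_monolithic {X : Type*} [TopologicalSpace X] [CompactSpace X] [T2Space X]
    [LindelofSpace (Cp (Cp X))]
    (hmono : ∀ A : Set X, A.Countable → ∃ 𝒩 : Set (Set (closure A)), 𝒩.Countable ∧
      ∀ (x : closure A) (U : Set (closure A)), IsOpen U → x ∈ U → ∃ N ∈ 𝒩, x ∈ N ∧ N ⊆ U) :
    LindelofSpace (Cp X) :=
  lindelof_Cp_of_normal fun A hA => by
    obtain ⟨𝒩, h𝒩, hnet⟩ := hmono A hA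
    have : LindelofSpace (Cp (closure A)) := lindelof_Cp_of_network 𝒩 h𝒩 hnet
    exact inferInstance

section closed
variable {X : Type*} [TopologicalSpace X] [CompactSpace X] [T2Space X]

/-- the restriction map -/
def res (F : Set X) (f : Cp X) : Cp F := ⟨fun y => f.1 y, f.2.comp continuous_subtype_val⟩

omit [CompactSpace X] [T2Space X] in
lemma continuous_res (F : Set X) : Continuous (res F : Cp X → Cp F) := by
  refine continuous_induced_rng.mpr ?_
  exact continuous_pi fun y => continuous_eval (y : X)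

lemma surjective_res {F : Set X} (hF : IsClosed F) : Function.Surjective (res F : Cp X → Cp F) := by
  intro h
  obtain ⟨g, hg⟩ := ContinuousMap.exists_restrict_eq hF (⟨h.1, h.2⟩ : C(F, ℝ))
  refine ⟨⟨g, g.continuous⟩, Subtype.ext (funext fun y => ?_)⟩
  have := congrArg (fun k : C(F, ℝ) => k y) hg
  exact this

/-- correct a function at finitely many points outside a closed set -/
lemma exists_adjust {F : Set X} (hF : IsClosed F) (g0 : Cp X) (S : Finset X) (v : X → ℝ) :
    ∃ g : Cp X, (∀ y ∈ F, g.1 y = g0.1 y) ∧ ∀ s ∈ S, s ∉ F → g.1 s = v s := by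
  classical
  have hb : ∀ s : X, s ∉ F → ∃ b : C(X, ℝ), (∀ y ∈ F, b y = 0) ∧
      (∀ t ∈ S, t ≠ s → b t = 0) ∧ b s = 1 := by
    intro s hs
    have h1 : IsClosed (F ∪ ((S.erase s : Finset X) : Set X)) :=
      hF.union (Finset.isClosed _)
    have h2 : IsClosed ({s} : Set X) := isClosed_singleton
    have h3 : Disjoint (F ∪ ((S.erase s : Finset X) : Set X)) {s} := by
      rw [disjoint_singleton_right]
      rintro (h | h)
      · exact hs h
      · simp at h
    obtain ⟨b, hb0, hb1, _⟩ := exists_continuous_zero_one_of_isClosed h1 h2 h3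
    refine ⟨b, fun y hy => hb0 (Or.inl hy), fun t ht hts => hb0 (Or.inr ?_), hb1 rfl⟩
    exact Finset.mem_coe.mpr (Finset.mem_erase.mpr ⟨hts, ht⟩)
  let b : X → C(X, ℝ) := fun s => if hs : s ∉ F then (hb s hs).choose else 0
  have hbs : ∀ s, s ∉ F → (∀ y ∈ F, b s y = 0) ∧ (∀ t ∈ S, t ≠ s → b s t = 0) ∧ b s s = 1 := by
    intro s hs
    have : b s = (hb s hs).choose := dif_pos hs
    rw [this]
    exact (hb s hs).choose_spec
  have hb0 : ∀ s, ∀ y ∈ F, b s y = 0 := by
    intro s y hy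
    by_cases hs : s ∉ F
    · exact (hbs s hs).1 y hy
    · have : b s = 0 := dif_neg hs
      rw [this]; rfl
  refine ⟨⟨fun x => g0.1 x + ∑ s ∈ S, (v s - g0.1 s) * b s x,
    g0.2.add (continuous_finsetSum _ fun s _ => continuous_const.mul (b s).continuous)⟩, ?_, ?_⟩
  · intro y hy
    simp [hb0 _ y hy]
  · intro t ht htF
    show g0.1 t + ∑ s ∈ S, (v s - g0.1 s) * b s t = v t
    have h1 : ∑ s ∈ S, (v s - g0.1 s) * b s t = (v t - g0.1 t) * b t t := by
      refine Finset.sum_eq_single t (fun s hs hst => ?_) (fun h => absurd ht h)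
      by_cases hsF : s ∉ F
      · rw [(hbs s hsF).2.1 t ht (Ne.symm hst), mul_zero]
      · have : b s = 0 := dif_neg hsF
        rw [this]; simp
    rw [h1, (hbs t htF).2.2]
    ring

lemma isOpenMap_res {F : Set X} (hF : IsClosed F) : IsOpenMap (res F : Cp X → Cp F) := by
  classical
  intro U hU
  rw [isOpen_iff_forall_mem_open]
  rintro _ ⟨f, hf, rfl⟩
  obtain ⟨S, ε, hε, hS⟩ := basic_nhd hU hf
  refine ⟨{h : Cp F | ∀ s : F, (s : X) ∈ S → |h.1 s - f.1 s| < ε}, ?_, ?_, ?_⟩
  · intro h hh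
    obtain ⟨g0, rfl⟩ := surjective_res hF h
    obtain ⟨g, hg1, hg2⟩ := exists_adjust hF g0 S f.1
    refine ⟨g, hS g fun s hs => ?_, Subtype.ext (funext fun y => hg1 y y.2)⟩
    by_cases hsF : s ∈ F
    · rw [hg1 s hsF]
      exact hh ⟨s, hsF⟩ hs
    · rw [hg2 s hs hsF]
      simpa using hε
  · have : {h : Cp F | ∀ s : F, (s : X) ∈ S → |h.1 s - f.1 s| < ε} =
        ⋂ s ∈ {s : F | (s : X) ∈ S}, {h : Cp F | |h.1 s - f.1 s| < ε} := by ext; simp
    rw [this]
    refine Set.Finite.isOpen_biInter ?_ fun s _ =>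
      isOpen_lt ((continuous_eval s).sub continuous_const).abs continuous_const
    exact S.finite_toSet.preimage Subtype.val_injective.injOn
  · intro s _
    simpa [res] using hε

/-- `C_p(C_p(F))` is Lindelöf for closed `F ⊆ X` if `C_p(C_p(X))` is. -/
theorem lindelof_CpCp_closed [LindelofSpace (Cp (Cp X))] {F : Set X} (hF : IsClosed F) :
    LindelofSpace (Cp (Cp F)) := by
  have hq : IsQuotientMap (res F : Cp X → Cp F) :=
    (isOpenMap_res hF).isQuotientMap (continuous_res F) (surjective_res hF)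
  choose ext hext using surjective_res hF
  let Zc : Set (Cp (Cp X)) := {Ψ | ∀ f g : Cp X, res F f = res F g → Ψ.1 f = Ψ.1 g}
  have hZc : IsClosed Zc := by
    have : Zc = ⋂ f : Cp X, ⋂ g : Cp X, ⋂ _ : res F f = res F g, {Ψ | Ψ.1 f = Ψ.1 g} := by
      ext; simp [Zc]
    rw [this]
    exact isClosed_iInter fun f => isClosed_iInter fun g => isClosed_iInter fun _ =>
      isClosed_eq (continuous_eval f) (continuous_eval g)
  have : LindelofSpace Zc := by
    rw [← isLindelof_iff_lindelofSpace]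
    exact hZc.isLindelof
  let T : Zc → Cp (Cp F) := fun Ψ => ⟨fun h => Ψ.1.1 (ext h), by
    rw [hq.continuous_iff]
    have : (fun h => Ψ.1.1 (ext h)) ∘ (res F : Cp X → Cp F) = Ψ.1.1 := by
      funext f
      exact Ψ.2 _ _ (hext (res F f))
    rw [this]
    exact Ψ.1.2⟩
  have hT : Continuous T := Continuous.subtype_mk
    (continuous_pi fun h => (continuous_eval (ext h)).comp continuous_subtype_val) _
  have hTs : Function.Surjective T := by
    intro ϕ
    refine ⟨⟨⟨fun f => ϕ.1 (res F f), ϕ.2.comp (continuous_res F)⟩, fun f g hfg => ?_⟩, ?_⟩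
    · show ϕ.1 (res F f) = ϕ.1 (res F g)
      rw [hfg]
    · refine Subtype.ext (funext fun h => ?_)
      show ϕ.1 (res F (ext h)) = ϕ.1 h
      rw [hext h]
  exact ⟨by
    have := isLindelof_range hT
    rwa [hTs.range_eq] at this⟩

end closed

end Pool.CpExtent
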