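import Mathlib

set_option autoImplicit false

open Topology Filter Set

namespace Pool.CpAnalytic

/-- `C_p(X)`: the continuous real functions on `X` with the topology of pointwise convergence. -/
abbrev Cp (X : Type*) [TopologicalSpace X] : Type _ := {f : X → ℝ // Continuous f}

variable {X : Type*} [TopologicalSpace X]

/-- evaluation is continuous on `C_p(X)` -/
lemma continuous_eval (x : X) : Continuous fun f : Cp X => f.1 x :=
  (continuous_apply x).comp continuous_subtype_val

/-- the constant function -/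
def cst (X : Type*) [TopologicalSpace X] (t : ℝ) : Cp X := ⟨fun _ => t, continuous_const⟩

/-- the closed set of those `φ` in `C_p(C_p(X))` that take natural values at the constants
`0, 1, 2, ...` -/
def LN (X : Type*) [TopologicalSpace X] : Set (Cp (Cp X)) :=
  {φ | ∀ n : ℕ, φ.1 (cst X n) ∈ range (Nat.cast : ℕ → ℝ)}

lemma isClosed_LN : IsClosed (LN X) := by
  have : LN X = ⋂ n : ℕ, (fun φ : Cp (Cp X) => φ.1 (cst X n)) ⁻¹' range (Nat.cast : ℕ → ℝ) := by
    ext φ; simp [LN]
  rw [this]
  exact isClosed_iInter fun n =>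
    Nat.isClosedEmbedding_coe_real.isClosed_range.preimage (continuous_eval (X := Cp X) (cst X n))

/-- the natural value of `φ` at the constant `n` -/
noncomputable def val (φ : LN X) (n : ℕ) : ℕ := (φ.2 n).choose

lemma val_spec (φ : LN X) (n : ℕ) : ((val φ n : ℕ) : ℝ) = φ.1.1 (cst X n) := (φ.2 n).choose_spec

lemma continuous_val (n : ℕ) : Continuous fun φ : LN X => val φ n := by
  rw [Nat.isClosedEmbedding_coe_real.isEmbedding.continuous_iff]
  have : ((Nat.cast : ℕ → ℝ) ∘ fun φ : LN X => val φ n) = fun φ : LN X => φ.1.1 (cst X n) := by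
    funext φ; exact val_spec φ n
  rw [this]
  exact (continuous_eval (X := Cp X) (cst X n)).comp continuous_subtype_val

/-- the decoded element of the Baire space -/
noncomputable def dec (φ : LN X) : ℕ → ℕ := fun n => (Nat.unpair (val φ n)).1

lemma continuous_dec : Continuous (dec : LN X → ℕ → ℕ) :=
  continuous_pi fun n =>
    (continuous_of_discreteTopology (f := fun j : ℕ => (Nat.unpair j).1)).comp (continuous_val n)

/-- **Main lemma.**  Let `C_p(C_p(X))` be Lindelöf, `a` a sequence of points of `X` and `k m`,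
`m` in the Baire space, continuous functions on `X` such that `k m (a n)` depends continuously on
`m`.  Then countably many of the `k m` are dense in all of them for the topology of pointwise
convergence on the closure of the sequence. -/
theorem family [Nonempty X] [LindelofSpace (Cp (Cp X))] (a : ℕ → X) (k : (ℕ → ℕ) → Cp X)
    (hk : Continuous fun m => fun n : ℕ => (k m).1 (a n)) :
    ∃ C : Set (ℕ → ℕ), C.Countable ∧ ∀ (m : ℕ → ℕ) (S : Finset X),
      (∀ s ∈ S, s ∈ closure (range a)) → ∀ ε > 0, ∃ c ∈ C, ∀ s ∈ S,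
        |(k c).1 s - (k m).1 s| < ε := by
  classical
  let _ : MetricSpace (ℕ → ℝ) := TopologicalSpace.metrizableSpaceMetric (ℕ → ℝ)
  obtain ⟨x0⟩ := ‹Nonempty X›
  let r : Cp X → ℕ → ℝ := fun f n => f.1 (a n)
  have hr : Continuous r := continuous_pi fun n => continuous_eval (a n)
  have : LindelofSpace (LN X) := by
    rw [← isLindelof_iff_lindelofSpace]
    exact isClosed_LN.isLindelof
  let F : LN X → LN X → ℝ := fun φ φ' =>
    φ'.1.1 (k (dec φ)) * dist (r (k (dec φ'))) (r (k (dec φ)))
  have hF : ∀ φ, Continuous (F φ) := by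
    intro φ
    have h1 : Continuous fun φ' : LN X => φ'.1.1 (k (dec φ)) :=
      (continuous_eval (X := Cp X) (k (dec φ))).comp continuous_subtype_val
    have h2 : Continuous fun φ' : LN X => r (k (dec φ')) := hk.comp continuous_dec
    exact h1.mul (h2.dist continuous_const)
  obtain ⟨t, htc, ht⟩ := LindelofSpace.elim_nhds_subcover (X := LN X)
    (fun φ => {φ' | F φ φ' < 1}) (fun φ => by
      refine (isOpen_lt (hF φ) continuous_const).mem_nhds ?_
      simp [F])
  refine ⟨dec '' t, htc.image _, ?_⟩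
  intro m S hS ε hε
  by_contra hcon
  push Not at hcon
  -- the function without singularity
  let θ : Cp X → ℝ := fun h => max 0 (ε - ∑ s ∈ S, |h.1 s - (k m).1 s|)
  have hθ : Continuous θ := by
    refine continuous_const.max (continuous_const.sub ?_)
    exact continuous_finsetSum _ fun s _ => ((continuous_eval s).sub continuous_const).abs
  let den : Cp X → ℝ := fun h => dist (r h) (r (k m)) + θ h
  have hden : Continuous den := (hr.dist continuous_const).add hθ
  have hpos : ∀ h, 0 < den h := by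
    intro h
    by_cases h0 : dist (r h) (r (k m)) = 0
    · have h1 : r h = r (k m) := dist_eq_zero.mp h0
      have h2 : ∀ x ∈ closure (range a), h.1 x = (k m).1 x := by
        have hcl : IsClosed {x | h.1 x = (k m).1 x} := isClosed_eq h.2 (k m).2
        have hsub : range a ⊆ {x | h.1 x = (k m).1 x} := by
          rintro _ ⟨n, rfl⟩
          exact congrFun h1 n
        intro x hx
        exact (hcl.closure_subset_iff.mpr hsub) hx
      have h3 : ∑ s ∈ S, |h.1 s - (k m).1 s| = 0 :=
        Finset.sum_eq_zero fun s hs => by rw [h2 s (hS s hs)]; simp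
      have h4 : θ h = ε := by
        simp only [θ, h3, sub_zero]
        exact max_eq_right hε.le
      simp only [den, h0, h4, zero_add]
      exact hε
    · have h1 : 0 < dist (r h) (r (k m)) := lt_of_le_of_ne dist_nonneg (Ne.symm h0)
      have h2 : 0 ≤ θ h := le_max_left _ _
      simp only [den]
      linarith
  let Ψ : Cp X → ℝ := fun h => (den h)⁻¹
  have hΨ : Continuous Ψ := hden.inv₀ fun h => (hpos h).ne'
  have hΨ0 : ∀ h, 0 ≤ Ψ h := fun h => (inv_pos.mpr (hpos h)).le
  -- correct the values at the constants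
  let q : ℕ → ℕ := fun n => Nat.pair (m n) ⌈Ψ (cst X n)⌉₊
  have hq : ∀ n : ℕ, Ψ (cst X n) ≤ q n := by
    intro n
    calc Ψ (cst X n) ≤ (⌈Ψ (cst X n)⌉₊ : ℝ) := Nat.le_ceil _
      _ ≤ (q n : ℝ) := by exact_mod_cast Nat.right_le_pair _ _
  obtain ⟨Pf, hPf⟩ := ContinuousMap.exists_extension Nat.isClosedEmbedding_coe_real
    (⟨fun n : ℕ => (q n : ℝ) - Ψ (cst X n), continuous_of_discreteTopology⟩ : C(ℕ, ℝ))
  have hPf' : ∀ n : ℕ, Pf n = (q n : ℝ) - Ψ (cst X n) := by
    intro n
    have := congrArg (fun g : C(ℕ, ℝ) => g n) hPf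
    simpa using this
  let φ0 : Cp (Cp X) := ⟨fun h => Ψ h + |Pf (h.1 x0)|,
    hΨ.add ((Pf.continuous.comp (continuous_eval x0)).abs)⟩
  have hval0 : ∀ n : ℕ, φ0.1 (cst X n) = q n := by
    intro n
    have h1 : Pf ((cst X n).1 x0) = (q n : ℝ) - Ψ (cst X n) := hPf' n
    simp only [φ0, h1]
    rw [abs_of_nonneg (sub_nonneg.mpr (hq n))]
    ring
  let φ : LN X := ⟨φ0, fun n => ⟨q n, (hval0 n).symm⟩⟩
  have hvalφ : ∀ n, val φ n = q n := by
    intro n
    have h1 : ((val φ n : ℕ) : ℝ) = (q n : ℝ) := by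
      rw [val_spec]; exact hval0 n
    exact_mod_cast h1
  have hdec : dec φ = m := by
    funext n
    simp [dec, hvalφ n, q]
  have hmem : φ ∈ ⋃ x ∈ t, {φ' | F x φ' < 1} := by rw [ht]; trivial
  obtain ⟨ψ, hψt, hψ⟩ : ∃ ψ ∈ t, F ψ φ < 1 := by
    simpa using hmem
  obtain ⟨s, hs, hsε⟩ := hcon (dec ψ) ⟨ψ, hψt, rfl⟩
  have hθ0 : θ (k (dec ψ)) = 0 := by
    refine max_eq_left ?_
    have h1 : |(k (dec ψ)).1 s - (k m).1 s| ≤ ∑ s ∈ S, |(k (dec ψ)).1 s - (k m).1 s| :=
      Finset.single_le_sum (f := fun s => |(k (dec ψ)).1 s - (k m).1 s|)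
        (fun _ _ => abs_nonneg _) hs
    linarith
  have hden0 : den (k (dec ψ)) = dist (r (k (dec ψ))) (r (k m)) := by
    simp only [den, hθ0, add_zero]
  have hd : 0 < dist (r (k (dec ψ))) (r (k m)) := hden0 ▸ hpos (k (dec ψ))
  have hFge : 1 ≤ F ψ φ := by
    have h1 : (dist (r (k (dec ψ))) (r (k m)))⁻¹ ≤ φ.1.1 (k (dec ψ)) := by
      have : Ψ (k (dec ψ)) = (dist (r (k (dec ψ))) (r (k m)))⁻¹ := by
        simp only [Ψ, hden0]
      rw [← this]
      exact le_add_of_nonneg_right (abs_nonneg _)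
    have h2 : F ψ φ = φ.1.1 (k (dec ψ)) * dist (r (k (dec ψ))) (r (k m)) := by
      simp only [F, hdec]
      rw [dist_comm]
    rw [h2]
    calc (1 : ℝ) = (dist (r (k (dec ψ))) (r (k m)))⁻¹ * dist (r (k (dec ψ))) (r (k m)) := by
          field_simp
      _ ≤ _ := mul_le_mul_of_nonneg_right h1 hd.le
  linarith

end Pool.CpAnalytic
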