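import Mathlib

set_option autoImplicit false

namespace Pool.Agent.CpTheory

open Filter Topology Set

/-- The space of continuous real functions with the topology of pointwise convergence. -/
abbrev Cp (X : Type*) [TopologicalSpace X] := {f : X → ℝ // Continuous f}

/-- Evaluation at a point, as an element of `Cp (Cp X)`. -/
def ev {X : Type*} [TopologicalSpace X] (x : X) : Cp (Cp X) :=
  ⟨fun f => f.1 x, (continuous_apply x).comp continuous_subtype_val⟩

@[simp] lemma ev_apply {X : Type*} [TopologicalSpace X] (x : X) (f : Cp X) :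
    (ev x).1 f = f.1 x := rfl

section General

variable {Z : Type*} [TopologicalSpace Z]

/-- The network condition: a compact cover with a countable network modulo it. -/
structure IsLS (𝒞 𝒩 : Set (Set (Cp Z))) : Prop where
  cN : 𝒩.Countable
  cpt : ∀ K ∈ 𝒞, IsCompact K
  cov : ⋃₀ 𝒞 = Set.univ
  net : ∀ K ∈ 𝒞, ∀ U : Set (Cp Z), IsOpen U → K ⊆ U → ∃ N ∈ 𝒩, K ⊆ N ∧ N ⊆ U

lemma exists_bound {𝒞 𝒩 : Set (Set (Cp Z))} (h : IsLS 𝒞 𝒩) (z : Z) (t : Cp Z) :
    ∃ N ∈ 𝒩, t ∈ N ∧ ∃ k : ℕ, ∀ t' ∈ N, |t'.1 z| ≤ k := by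
  have ht : t ∈ ⋃₀ 𝒞 := by rw [h.cov]; trivial
  obtain ⟨K, hK, htK⟩ := ht
  have hc : Continuous (fun t' : Cp Z => |t'.1 z|) :=
    ((continuous_apply z).comp continuous_subtype_val).abs
  obtain ⟨M, hM⟩ := (h.cpt K hK).bddAbove_image hc.continuousOn
  obtain ⟨k, hk⟩ := exists_nat_gt M
  have hopen : IsOpen {t' : Cp Z | |t'.1 z| < k} := isOpen_lt hc continuous_const
  obtain ⟨N, hN, hKN, hNU⟩ := h.net K hK _ hopen (by
    intro t' ht'
    exact lt_of_le_of_lt (hM (mem_image_of_mem _ ht')) hk)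
  exact ⟨N, hN, hKN htK, k, fun t' ht' => (hNU ht').le⟩

end General

variable {X : Type*} [TopologicalSpace X]

/-- A sequence in `Cp X` on which every continuous function on `Cp X` is bounded has only
strictly `ω`-continuous cluster points. -/
lemma strictly_omega (f : ℕ → Cp X) (hb : ∀ t : Cp (Cp X), ∃ M : ℝ, ∀ n, |t.1 (f n)| ≤ M)
    (U : Ultrafilter ℕ) (g : X → ℝ)
    (hg : ∀ x, Tendsto (fun n => (f n).1 x) U (𝓝 (g x)))
    (A : Set X) (hA : A.Countable) : ∃ h : Cp X, ∀ a ∈ A, h.1 a = g a := by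
  by_contra hcon
  push Not at hcon
  have : Countable A := hA.to_subtype
  let R : Cp X → (A → ℝ) := fun h a => h.1 a
  have hR : Continuous R := by
    refine continuous_pi fun a => ?_
    exact (continuous_apply (a : X)).comp continuous_subtype_val
  let gA : A → ℝ := fun a => g a
  let _ := TopologicalSpace.metrizableSpaceMetric (A → ℝ)
  have hne : ∀ h, dist (R h) gA ≠ 0 := by
    intro h h0
    obtain ⟨a, ha, hne⟩ := hcon h
    have := dist_eq_zero.1 h0
    exact hne (congrFun this ⟨a, ha⟩)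
  let t : Cp (Cp X) := ⟨fun h => 1 / dist (R h) gA, by
    exact continuous_const.div (hR.dist continuous_const) hne⟩
  obtain ⟨M, hM⟩ := hb t
  have hpos : ∀ n, 0 < dist (R (f n)) gA := fun n =>
    lt_of_le_of_ne dist_nonneg (Ne.symm (hne (f n)))
  have hM1 : ∀ n, 1 ≤ M * dist (R (f n)) gA := by
    intro n
    have h1 : |1 / dist (R (f n)) gA| ≤ M := hM n
    rw [abs_of_pos (one_div_pos.2 (hpos n)), div_le_iff₀ (hpos n)] at h1
    exact h1
  have hlim : Tendsto (fun n => R (f n)) U (𝓝 gA) := by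
    rw [tendsto_pi_nhds]
    intro a
    exact hg a
  have hlim2 : Tendsto (fun n => M * dist (R (f n)) gA) U (𝓝 (M * dist gA gA)) :=
    (hlim.dist tendsto_const_nhds).const_mul M
  rw [dist_self, mul_zero] at hlim2
  have := ge_of_tendsto' hlim2 hM1
  linarith

/-- Limits of evaluations in `Cp (Cp X)` are evaluations. -/
lemma limit_of_ev (l : Filter ℕ) [l.NeBot] (x : ℕ → X) (t : Cp (Cp X))
    (ht : Tendsto (fun n => ev (x n)) l (𝓝 t)) : ∃ y : X, t = ev y := by
  have happ : ∀ f : Cp X, Tendsto (fun n => f.1 (x n)) l (𝓝 (t.1 f)) := by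
    intro f
    exact ((continuous_apply f).comp continuous_subtype_val).continuousAt.tendsto.comp ht
  -- multiplicativity and so on
  by_contra hcon
  push Not at hcon
  have hex : ∀ y : X, ∃ f : Cp X, t.1 f ≠ f.1 y := by
    intro y
    by_contra h
    push Not at h
    exact hcon y (Subtype.ext (funext h))
  choose F hF using hex
  -- continuity of t at zero
  let zero : Cp X := ⟨fun _ => 0, continuous_const⟩
  have ht0 : t.1 zero = 0 := by
    have := happ zero
    exact tendsto_nhds_unique this tendsto_const_nhds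
  have hO : {h : Cp X | |t.1 h| < 1} ∈ 𝓝 zero := by
    have : IsOpen {h : Cp X | |t.1 h| < 1} := isOpen_lt t.2.abs continuous_const
    refine this.mem_nhds ?_
    simp [ht0]
  rw [nhds_subtype_eq_comap, mem_comap] at hO
  obtain ⟨W, hW, hWsub⟩ := hO
  rw [nhds_pi, Filter.mem_pi] at hW
  obtain ⟨S, hS, V, hV, hVsub⟩ := hW
  -- the product
  let G : X → Cp X := fun y => ⟨fun z => (F y).1 z - (F y).1 y, (F y).2.sub continuous_const⟩
  have hGt : ∀ y, t.1 (G y) = t.1 (F y) - (F y).1 y := by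
    intro y
    exact tendsto_nhds_unique (happ (G y)) ((happ (F y)).sub_const _)
  let H : Cp X := ⟨fun z => ∏ y ∈ hS.toFinset, (G y).1 z, by
    exact continuous_finsetProd _ fun y _ => (G y).2⟩
  have hHt : t.1 H = ∏ y ∈ hS.toFinset, t.1 (G y) := by
    refine tendsto_nhds_unique (happ H) ?_
    exact tendsto_finsetProd _ fun y _ => happ (G y)
  have hHt0 : t.1 H ≠ 0 := by
    rw [hHt, Finset.prod_ne_zero_iff]
    intro y _
    rw [hGt, sub_ne_zero]
    exact hF y
  let L : Cp X := ⟨fun z => (t.1 H)⁻¹ * H.1 z, continuous_const.mul H.2⟩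
  have hLt : t.1 L = 1 := by
    have h1 : t.1 L = (t.1 H)⁻¹ * t.1 H :=
      tendsto_nhds_unique (happ L) ((happ H).const_mul _)
    rw [h1, inv_mul_cancel₀ hHt0]
  have hLmem : L.1 ∈ S.pi V := by
    intro y hy
    have : L.1 y = 0 := by
      have : H.1 y = 0 := by
        refine Finset.prod_eq_zero (i := y) (hS.mem_toFinset.2 hy) ?_
        simp [G]
      simp [L, this]
    rw [this]
    exact mem_of_mem_nhds (hV y)
  have := hWsub (show L ∈ Subtype.val ⁻¹' W from hVsub hLmem)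
  simp [hLt] at this

lemma limit_in_compact {T : Type*} [TopologicalSpace T] {K : Set T} (hK : IsCompact K)
    (U : Ultrafilter ℕ) (x : ℕ → T)
    (h : ∀ W, IsOpen W → K ⊆ W → ∀ᶠ n in (U : Filter ℕ), x n ∈ W) :
    ∃ t ∈ K, Tendsto x U (𝓝 t) := by
  by_contra hcon
  push Not at hcon
  have key : ∃ W, IsOpen W ∧ K ⊆ W ∧ ∀ᶠ n in (U : Filter ℕ), x n ∉ W := by
    refine hK.induction_on (p := fun s => ∃ W, IsOpen W ∧ s ⊆ W ∧
      ∀ᶠ n in (U : Filter ℕ), x n ∉ W) ?_ ?_ ?_ ?_
    · exact ⟨∅, isOpen_empty, subset_rfl, by simp⟩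
    · rintro s t hst ⟨W, hW, htW, hn⟩
      exact ⟨W, hW, hst.trans htW, hn⟩
    · rintro s t ⟨W, hW, hsW, hn⟩ ⟨W', hW', htW', hn'⟩
      refine ⟨W ∪ W', hW.union hW', union_subset_union hsW htW', ?_⟩
      filter_upwards [hn, hn'] with n h1 h2
      rintro (h3 | h3)
      · exact h1 h3
      · exact h2 h3
    · intro t ht
      have := hcon t ht
      rw [tendsto_nhds] at this
      push Not at this
      obtain ⟨O, hO, htO, hn⟩ := this
      refine ⟨O, mem_nhdsWithin_of_mem_nhds (hO.mem_nhds htO), O, hO, subset_rfl, ?_⟩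
      rw [Ultrafilter.eventually_not]
      exact hn
  obtain ⟨W, hW, hKW, hn⟩ := key
  obtain ⟨n, h1, h2⟩ := ((h W hW hKW).and hn).exists
  exact h2 h1

lemma real_ultra_limit (U : Ultrafilter ℕ) (a : ℕ → ℝ) (M : ℝ) (h : ∀ n, |a n| ≤ M) :
    ∃ b, Tendsto a U (𝓝 b) := by
  have := (isCompact_Icc (a := -M) (b := M)).ultrafilter_le_nhds (U.map a) (by
    rw [Ultrafilter.coe_map, le_principal_iff, mem_map]
    exact Eventually.of_forall fun n => abs_le.1 (h n))
  obtain ⟨b, _, hb⟩ := this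
  exact ⟨b, hb⟩

/-- Maximal pairwise related subsets. -/
lemma exists_max_pairwise {α : Type*} (B : Set α) (r : α → α → Prop)
    (hr : ∀ a b, r a b → r b a) :
    ∃ S ⊆ B, S.Pairwise r ∧ ∀ p ∈ B, p ∉ S → ∃ q ∈ S, ¬ r p q := by
  obtain ⟨S, hS⟩ := zorn_subset {S : Set α | S ⊆ B ∧ S.Pairwise r} (by
    intro c hc hchain
    refine ⟨⋃₀ c, ⟨sUnion_subset fun s hs => (hc hs).1, ?_⟩, fun s hs => subset_sUnion_of_mem hs⟩
    rw [pairwise_sUnion hchain.directedOn]
    exact fun s hs => (hc hs).2)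
  refine ⟨S, hS.prop.1, hS.prop.2, ?_⟩
  intro p hpB hpS
  by_contra hcon
  push Not at hcon
  have h1 : insert p S ⊆ S := by
    refine hS.le_of_ge ⟨insert_subset hpB hS.prop.1, ?_⟩ (subset_insert _ _)
    rw [pairwise_insert]
    exact ⟨hS.prop.2, fun b hb _ => ⟨hcon b hb, hr _ _ (hcon b hb)⟩⟩
  exact hpS (h1 (mem_insert _ _))

/-- Closing off. -/
lemma exists_closed_countable {α : Type*} (S : Set α → Set α)
    (hS : ∀ F : Set α, F.Finite → (S F).Countable) :
    ∃ C : Set α, C.Countable ∧ ∀ F : Set α, F.Finite → F ⊆ C → S F ⊆ C := by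
  let C : ℕ → Set α := fun n => Nat.rec ∅ (fun _ D => D ∪ ⋃ F ∈ {F : Set α | F.Finite ∧ F ⊆ D}, S F) n
  have hC0 : C 0 = ∅ := rfl
  have hCs : ∀ n, C (n+1) = C n ∪ ⋃ F ∈ {F : Set α | F.Finite ∧ F ⊆ C n}, S F := fun n => rfl
  have hmono : Monotone C := by
    refine monotone_nat_of_le_succ fun n => ?_
    rw [hCs]
    exact subset_union_left
  have hcount : ∀ n, (C n).Countable := by
    intro n
    induction n with
    | zero => rw [hC0]; exact countable_empty
    | succ n ih =>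
      rw [hCs]
      refine ih.union ?_
      refine (countable_ofPred_finite_subset ih).biUnion ?_
      rintro F ⟨hF, _⟩
      exact hS F hF
  refine ⟨⋃ n, C n, countable_iUnion hcount, ?_⟩
  intro F hF hFC
  have : ∃ n, F ⊆ C n := by
    refine Set.Finite.induction_on_subset (motive := fun s _ => ∃ n, s ⊆ C n) F hF ?_ ?_
    · exact ⟨0, empty_subset _⟩
    · rintro a s haF _ _ ⟨n, hn⟩
      obtain ⟨m, hm⟩ := mem_iUnion.1 (hFC haF)
      refine ⟨max m n, ?_⟩
      rw [insert_subset_iff]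
      exact ⟨hmono (le_max_left m n) hm, hn.trans (hmono (le_max_right m n))⟩
  obtain ⟨n, hn⟩ := this
  refine Subset.trans ?_ (subset_iUnion C (n+1))
  rw [hCs]
  refine Subset.trans ?_ subset_union_right
  exact subset_biUnion_of_mem (u := fun F => S F) (show F ∈ {F : Set α | F.Finite ∧ F ⊆ C n} from ⟨hF, hn⟩)

/-- Urysohn-type separation with values `0` on the closed set and `1` at the point. -/
lemma exists_sep [CompletelyRegularSpace X] {K : Set X} (hK : IsClosed K) {x : X} (hx : x ∉ K) :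
    ∃ f : Cp X, (∀ y ∈ K, f.1 y = 0) ∧ f.1 x = 1 := by
  obtain ⟨f, hf, hfx, hfK⟩ := CompletelyRegularSpace.completely_regular x K hK hx
  refine ⟨⟨fun y => 1 - (f y : ℝ), continuous_const.sub (continuous_subtype_val.comp hf)⟩, ?_, ?_⟩
  · intro y hy
    have := hfK hy
    simp [this]
  · simp [hfx]

theorem exists_countable_dense [CompletelyRegularSpace X]
    (hspread : ∀ D : Set X, DiscreteTopology ↥D → D.Countable)
    {𝒞 𝒩 : Set (Set (Cp (Cp X)))} (h : IsLS 𝒞 𝒩) :
    ∃ A : Set X, A.Countable ∧ Dense A := by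
  classical
  -- enumeration of the network
  have hne : 𝒩.Nonempty := by
    let zero : Cp X := ⟨fun _ => 0, continuous_const⟩
    let t : Cp (Cp X) := ⟨fun _ => 0, continuous_const⟩
    obtain ⟨N, hN, _⟩ := exists_bound h zero t
    exact ⟨N, hN⟩
  obtain ⟨E, hE⟩ := h.cN.exists_eq_range hne
  have hEmem : ∀ i, E i ∈ 𝒩 := fun i => by rw [hE]; exact mem_range_self i
  -- basic sets
  let V : Finset ℕ × Finset (ℕ × ℕ) → Set (X × Cp X) := fun J =>
    {p | (∀ i ∈ J.1, ev p.1 ∈ E i) ∧ ∀ ik ∈ J.2, ∀ t ∈ E ik.1, |t.1 p.2| ≤ (ik.2 : ℝ)}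
  let B : Set (X × Cp X) → (Finset ℕ × Finset (ℕ × ℕ)) → Set (X × Cp X) := fun F J =>
    {p | p.2.1 p.1 = 1 ∧ p ∈ V J ∧ ∀ q ∈ F, 1/2 ≤ q.2.1 p.1 ∧ p.2.1 q.1 = 0}
  let r : (X × Cp X) → (X × Cp X) → Prop := fun p q => p.2.1 q.1 < 1/2 ∧ q.2.1 p.1 < 1/2
  have hr : ∀ a b, r a b → r b a := fun a b hab => ⟨hab.2, hab.1⟩
  choose S hSB hSp hSmax using fun F J => exists_max_pairwise (B F J) r hr
  have hScount : ∀ F J, (S F J).Countable := by
    intro F J
    have hinj : Set.InjOn Prod.fst (S F J) := by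
      intro p hp q hq hpq
      by_contra hne
      have h1 := (hSp F J hp hq hne).1
      rw [← hpq, (hSB F J hp).1] at h1
      norm_num at h1
    refine Set.countable_of_injective_of_countable_image hinj ?_
    apply hspread
    rw [discreteTopology_subtype_iff']
    rintro _ ⟨p, hp, rfl⟩
    refine ⟨{y | 1/2 < p.2.1 y}, isOpen_lt continuous_const p.2.2, ?_⟩
    ext y
    constructor
    · rintro ⟨hy1, q, hq, rfl⟩
      by_contra hne
      have hpq : p ≠ q := by
        rintro rfl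
        exact hne rfl
      have := (hSp F J hp hq hpq).1
      have h1 : 1/2 < p.2.1 q.1 := hy1
      linarith
    · rintro rfl
      refine ⟨?_, p, hp, rfl⟩
      have := (hSB F J hp).1
      simp only [mem_ofPred_eq, this]
      norm_num
  obtain ⟨C, hCc, hC⟩ := exists_closed_countable (fun F => ⋃ J, S F J)
    (fun F _ => countable_iUnion fun J => hScount F J)
  refine ⟨Prod.fst '' C, hCc.image _, ?_⟩
  by_contra hnd
  rw [Dense] at hnd
  push Not at hnd
  obtain ⟨x, hx⟩ := hnd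
  obtain ⟨f, hf0, hf1⟩ := exists_sep isClosed_closure hx
  have hfC : ∀ q ∈ C, f.1 q.1 = 0 := fun q hq => hf0 _ (subset_closure (mem_image_of_mem _ hq))
  have hevx : ev x ∈ ⋃₀ 𝒞 := by rw [h.cov]; trivial
  obtain ⟨K, hK, hxK⟩ := hevx
  let J : ℕ → Finset ℕ × Finset (ℕ × ℕ) := fun j =>
    ((Finset.range j).filter (fun i => K ⊆ E i),
      ((Finset.range j) ×ˢ (Finset.range j)).filter (fun ik => ∀ t ∈ E ik.1, |t.1 f| ≤ (ik.2 : ℝ)))
  have hpV : ∀ j, (x, f) ∈ V (J j) := by
    intro j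
    refine ⟨?_, ?_⟩
    · intro i hi
      exact (Finset.mem_filter.1 hi).2 hxK
    · intro ik hik
      exact (Finset.mem_filter.1 hik).2
  obtain ⟨s, hsP, hsr⟩ := exists_seq_of_forall_finset_exists
    (fun a : ℕ × (X × Cp X) => a.2 ∈ C ∧ 1/2 ≤ a.2.2.1 x ∧ a.2 ∈ V (J a.1))
    (fun a b => a.1 < b.1 ∧ 1/2 ≤ a.2.2.1 b.2.1 ∧ b.2.2.1 a.2.1 = 0) (by
      intro s hs
      let j := s.sup Prod.fst + 1
      let F : Set (X × Cp X) := Prod.snd '' (s : Set (ℕ × (X × Cp X)))
      have hFfin : F.Finite := s.finite_toSet.image _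
      have hFC : F ⊆ C := by
        rintro _ ⟨a, ha, rfl⟩
        exact (hs a ha).1
      have hpB : (x, f) ∈ B F (J j) := by
        refine ⟨hf1, hpV j, ?_⟩
        rintro _ ⟨a, ha, rfl⟩
        exact ⟨(hs a ha).2.1, hfC _ (hs a ha).1⟩
      have hpS : (x, f) ∉ S F (J j) := by
        intro hmem
        have : (x, f) ∈ C := hC F hFfin hFC (mem_iUnion.2 ⟨J j, hmem⟩)
        exact hx (subset_closure (mem_image_of_mem Prod.fst this))
      obtain ⟨q, hqS, hq⟩ := hSmax F (J j) _ hpB hpS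
      have hqC : q ∈ C := hC F hFfin hFC (mem_iUnion.2 ⟨J j, hqS⟩)
      have hq2 : 1/2 ≤ q.2.1 x := by
        by_contra hlt
        push Not at hlt
        refine hq ⟨?_, hlt⟩
        have := hfC q hqC
        simp only [this]
        norm_num
      have hqB := hSB F (J j) hqS
      refine ⟨(j, q), ⟨hqC, hq2, hqB.2.1⟩, ?_⟩
      intro a ha
      refine ⟨Nat.lt_succ_of_le (Finset.le_sup (f := Prod.fst) ha), ?_⟩
      exact hqB.2.2 _ ⟨a, ha, rfl⟩)
  -- the sequences
  have hj : ∀ n, n ≤ (s n).1 := by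
    intro n
    induction n with
    | zero => exact Nat.zero_le _
    | succ n ih => exact lt_of_le_of_lt ih (hsr n (n+1) (Nat.lt_succ_self n)).1
  let U : Ultrafilter ℕ := hyperfilter ℕ
  have hUle : (U : Filter ℕ) ≤ atTop := by
    rw [← Nat.cofinite_eq_atTop]
    exact hyperfilter_le_cofinite
  -- limit of the points
  obtain ⟨t, htK, htlim⟩ := limit_in_compact (h.cpt K hK) U (fun n => ev (s n).2.1) (by
    intro W hW hKW
    obtain ⟨N, hN, hKN, hNW⟩ := h.net K hK W hW hKW
    rw [hE] at hN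
    obtain ⟨i, rfl⟩ := hN
    refine hUle ?_
    filter_upwards [eventually_gt_atTop i] with n hn
    refine hNW ((hsP n).2.2.1 i ?_)
    exact Finset.mem_filter.2 ⟨Finset.mem_range.2 (lt_of_lt_of_le hn (hj n)), hKN⟩)
  obtain ⟨y, rfl⟩ := limit_of_ev U (fun n => (s n).2.1) t htlim
  have hylim : ∀ g : Cp X, Tendsto (fun n => g.1 (s n).2.1) U (𝓝 (g.1 y)) := by
    intro g
    exact ((continuous_apply g).comp continuous_subtype_val).continuousAt.tendsto.comp htlim
  -- boundedness of the functions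
  have hbdd : ∀ t : Cp (Cp X), ∃ M : ℝ, ∀ n, |t.1 (s n).2.2| ≤ M := by
    intro t
    obtain ⟨N, hN, htN, k, hk⟩ := exists_bound h f t
    rw [hE] at hN
    obtain ⟨i, rfl⟩ := hN
    have hev : ∀ᶠ n in atTop, |t.1 (s n).2.2| ≤ (k : ℝ) := by
      filter_upwards [eventually_gt_atTop (max i k)] with n hn
      refine (hsP n).2.2.2 (i, k) ?_ t htN
      refine Finset.mem_filter.2 ⟨Finset.mem_product.2 ⟨?_, ?_⟩, hk⟩
      · exact Finset.mem_range.2 (lt_of_le_of_lt (le_max_left i k) (lt_of_lt_of_le hn (hj n)))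
      · exact Finset.mem_range.2 (lt_of_le_of_lt (le_max_right i k) (lt_of_lt_of_le hn (hj n)))
    obtain ⟨M, hM⟩ := (Filter.IsBoundedUnder.bddAbove_range
      (f := fun n => |t.1 (s n).2.2|) ⟨k, by simpa using hev⟩)
    exact ⟨M, fun n => hM (mem_range_self n)⟩
  have hlim : ∀ z : X, ∃ b, Tendsto (fun n => (s n).2.2.1 z) U (𝓝 b) := by
    intro z
    obtain ⟨M, hM⟩ := hbdd (ev z)
    exact real_ultra_limit U _ M hM
  choose g hg using hlim
  obtain ⟨w, hw⟩ := strictly_omega (fun n => (s n).2.2) hbdd U g hg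
    (insert y (range fun n => (s n).2.1)) ((countable_range _).insert _)
  -- contradiction
  have h1 : ∀ n, g (s n).2.1 = 0 := by
    intro n
    refine tendsto_nhds_unique (hg _) ?_
    refine tendsto_const_nhds.congr' ?_
    refine hUle ?_
    filter_upwards [eventually_gt_atTop n] with m hm
    exact ((hsr n m hm).2.2).symm
  have h2 : w.1 y = 0 := by
    refine tendsto_nhds_unique (hylim w) ?_
    have : (fun n => w.1 (s n).2.1) = fun _ => (0 : ℝ) := by
      funext n
      rw [hw _ (mem_insert_of_mem _ (mem_range_self n)), h1]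
    rw [this]
    exact tendsto_const_nhds
  have h3 : 1/2 ≤ g y := by
    refine ge_of_tendsto' (hg y) ?_
    intro m
    refine ge_of_tendsto (hylim (s m).2.2) ?_
    refine hUle ?_
    filter_upwards [eventually_gt_atTop m] with n hn
    exact (hsr m n hn).2.1
  have h4 : w.1 y = g y := hw _ (mem_insert _ _)
  rw [h4] at h2
  linarith

/-- If `X` has a countable dense subset and `Cp (Cp X)` is a Lindelöf `Σ`-space, then `X` has a
countable network. -/
theorem exists_network_of_dense [CompletelyRegularSpace X]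
    {𝒞 𝒩 : Set (Set (Cp (Cp X)))} (h : IsLS 𝒞 𝒩) {A : Set X} (hA : A.Countable) (hd : Dense A) :
    ∃ 𝒲 : Set (Set X), 𝒲.Countable ∧
      ∀ (x : X) (U : Set X), IsOpen U → x ∈ U → ∃ N ∈ 𝒲, x ∈ N ∧ N ⊆ U := by
  classical
  have hne : 𝒩.Nonempty := by
    let zero : Cp X := ⟨fun _ => 0, continuous_const⟩
    let t : Cp (Cp X) := ⟨fun _ => 0, continuous_const⟩
    obtain ⟨N, hN, _⟩ := exists_bound h zero t
    exact ⟨N, hN⟩
  obtain ⟨E, hE⟩ := h.cN.exists_eq_range hne
  have : Countable A := hA.to_subtype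
  let R : Cp X → (A → ℝ) := fun g a => g.1 a
  have hR : Continuous R := by
    refine continuous_pi fun a => ?_
    exact (continuous_apply (a : X)).comp continuous_subtype_val
  let P : Finset (ℕ × ℕ) → Set (Cp X) := fun J =>
    {g | ∀ ik ∈ J, ∀ t ∈ E ik.1, |t.1 g| ≤ (ik.2 : ℝ)}
  let 𝒲 : Set (Set (Cp X)) :=
    (fun Jb : Finset (ℕ × ℕ) × Set (A → ℝ) => P Jb.1 ∩ R ⁻¹' Jb.2) ''
      (Set.univ ×ˢ TopologicalSpace.countableBasis (A → ℝ))
  have hWc : 𝒲.Countable := by
    refine Countable.image ?_ _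
    exact (Set.to_countable _).prod (TopologicalSpace.countable_countableBasis _)
  have hWnet : ∀ (f : Cp X) (O : Set (Cp X)), IsOpen O → f ∈ O → ∃ W ∈ 𝒲, f ∈ W ∧ W ⊆ O := by
    intro f O hO hfO
    by_contra hcon
    push Not at hcon
    let J : ℕ → Finset (ℕ × ℕ) := fun j =>
      ((Finset.range j) ×ˢ (Finset.range j)).filter (fun ik => ∀ t ∈ E ik.1, |t.1 f| ≤ (ik.2 : ℝ))
    have hfP : ∀ j, f ∈ P (J j) := fun j ik hik => (Finset.mem_filter.1 hik).2
    obtain ⟨c, hc⟩ := (𝓝 (R f)).exists_antitone_basis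
    have hb : ∀ n, ∃ b ∈ TopologicalSpace.countableBasis (A → ℝ), R f ∈ b ∧ b ⊆ c n := by
      intro n
      exact (TopologicalSpace.isBasis_countableBasis (A → ℝ)).mem_nhds_iff.1 (hc.1.mem_of_mem trivial)
    choose b hbB hbf hbc using hb
    have hg : ∀ n, ∃ g, g ∈ P (J n) ∧ R g ∈ b n ∧ g ∉ O := by
      intro n
      have := hcon (P (J n) ∩ R ⁻¹' (b n)) ⟨(J n, b n), ⟨trivial, hbB n⟩, rfl⟩ ⟨hfP n, hbf n⟩
      obtain ⟨g, hg1, hg2⟩ := not_subset.1 this
      exact ⟨g, hg1.1, hg1.2, hg2⟩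
    choose g hgP hgb hgO using hg
    have hRlim : Tendsto (fun n => R (g n)) atTop (𝓝 (R f)) :=
      hc.tendsto fun n => hbc n (hgb n)
    let U : Ultrafilter ℕ := hyperfilter ℕ
    have hUle : (U : Filter ℕ) ≤ atTop := by
      rw [← Nat.cofinite_eq_atTop]
      exact hyperfilter_le_cofinite
    have hbdd : ∀ t : Cp (Cp X), ∃ M : ℝ, ∀ n, |t.1 (g n)| ≤ M := by
      intro t
      obtain ⟨N, hN, htN, k, hk⟩ := exists_bound h f t
      rw [hE] at hN
      obtain ⟨i, rfl⟩ := hN
      have hev : ∀ᶠ n in atTop, |t.1 (g n)| ≤ (k : ℝ) := by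
        filter_upwards [eventually_gt_atTop (max i k)] with n hn
        refine hgP n (i, k) ?_ t htN
        refine Finset.mem_filter.2 ⟨Finset.mem_product.2 ⟨?_, ?_⟩, hk⟩
        · exact Finset.mem_range.2 (lt_of_le_of_lt (le_max_left i k) hn)
        · exact Finset.mem_range.2 (lt_of_le_of_lt (le_max_right i k) hn)
      obtain ⟨M, hM⟩ := (Filter.IsBoundedUnder.bddAbove_range
        (f := fun n => |t.1 (g n)|) ⟨k, by simpa using hev⟩)
      exact ⟨M, fun n => hM (mem_range_self n)⟩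
    have hlim : ∀ z : X, ∃ b, Tendsto (fun n => (g n).1 z) U (𝓝 b) := by
      intro z
      obtain ⟨M, hM⟩ := hbdd (ev z)
      exact real_ultra_limit U _ M hM
    choose k hk using hlim
    have hkA : ∀ a ∈ A, k a = f.1 a := by
      intro a ha
      refine tendsto_nhds_unique (hk a) ?_
      have := (tendsto_pi_nhds.1 hRlim) ⟨a, ha⟩
      exact this.mono_left hUle
    have hkf : ∀ x, k x = f.1 x := by
      intro x
      obtain ⟨w, hw⟩ := strictly_omega g hbdd U k hk (insert x A) (hA.insert _)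
      have hwf : w.1 = f.1 := by
        refine Continuous.ext_on hd w.2 f.2 ?_
        intro a ha
        rw [hw a (mem_insert_of_mem _ ha), hkA a ha]
      rw [← hw x (mem_insert _ _), hwf]
    have hgf : Tendsto g U (𝓝 f) := by
      rw [tendsto_subtype_rng, tendsto_pi_nhds]
      intro x
      rw [← hkf]
      exact hk x
    obtain ⟨n, hn⟩ := (hgf.eventually (hO.mem_nhds hfO)).exists
    exact hgO n hn
  refine ⟨(fun W : Set (Cp X) => {x : X | ∀ g ∈ W, 1/2 < g.1 x}) '' 𝒲, hWc.image _, ?_⟩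
  intro x O hO hxO
  obtain ⟨f, hf0, hf1⟩ := exists_sep hO.isClosed_compl (x := x) (by simpa using hxO)
  have hopen : IsOpen {g : Cp X | 1/2 < g.1 x} :=
    isOpen_lt continuous_const ((continuous_apply x).comp continuous_subtype_val)
  obtain ⟨W, hW, hfW, hWO⟩ := hWnet f _ hopen (by
    simp only [mem_ofPred_eq, hf1]
    norm_num)
  refine ⟨_, mem_image_of_mem _ hW, fun g hg => hWO hg, ?_⟩
  intro z hz
  by_contra hzO
  have h1 := hz f hfW
  rw [hf0 z hzO] at h1
  norm_num at h1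

/-- **Main theorem.** A completely regular space with countable spread whose second iterated
function space is a Lindelöf `Σ`-space has a countable network. -/
theorem exists_network [CompletelyRegularSpace X]
    (hspread : ∀ D : Set X, DiscreteTopology ↥D → D.Countable)
    {𝒞 𝒩 : Set (Set (Cp (Cp X)))} (h : IsLS 𝒞 𝒩) :
    ∃ 𝒲 : Set (Set X), 𝒲.Countable ∧
      ∀ (x : X) (U : Set X), IsOpen U → x ∈ U → ∃ N ∈ 𝒲, x ∈ N ∧ N ⊆ U := by
  obtain ⟨A, hA, hd⟩ := exists_countable_dense hspread h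
  exact exists_network_of_dense h hA hd

end Pool.Agent.CpTheory
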