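import Mathlib
import Pool.Agent.CpTheory.Monolithic

set_option autoImplicit false

open Topology Filter Set

namespace Pool.CpExtent

section core

variable {X : Type*} [TopologicalSpace X] [CompactSpace X] [T2Space X]
variable {W : Type*} [LinearOrder W] [WellFoundedLT W]

omit [WellFoundedLT W] in
lemma exists_above (hI : ∀ w : W, (Iic w).Countable) {A0 : Set W} (hA : ¬A0.Countable)
    {C : Set W} (hC : C.Countable) : ∃ α ∈ A0, ∀ c ∈ C, c < α := by
  by_contra hcon
  push Not at hcon
  refine hA ((hC.biUnion fun c _ => hI c).mono fun α hα => ?_)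
  obtain ⟨c, hc, hcα⟩ := hcon α hα
  exact mem_biUnion hc hcα

omit [WellFoundedLT W] in
/-- The crossing lemma: a continuous function on `C_p(X)` cannot separate two uncountable sets of
the `h α`. -/
lemma crossing (hI : ∀ w : W, (Iic w).Countable) {A0 A1 : Set W} (h0 : ¬A0.Countable)
    (h1 : ¬A1.Countable) (x : W → X) (hx : DenseRange x) (h : W → Cp X)
    (hle : ∀ v w, v ≤ w → (h v).1 (x w) = 1) (hlt : ∀ v w, w < v → (h v).1 (x w) = 0)
    (Ψ : Cp (Cp X)) : ∃ α ∈ A0, ∃ β ∈ A1, |Ψ.1 (h α) - Ψ.1 (h β)| < 1 / 3 := by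
  classical
  have h01 : ∀ α y, (h α).1 y = 0 ∨ (h α).1 y = 1 := by
    intro α y
    have hc : IsClosed {y | (h α).1 y = 0 ∨ (h α).1 y = 1} :=
      (isClosed_eq (h α).2 continuous_const).union (isClosed_eq (h α).2 continuous_const)
    have hsub : range x ⊆ {y | (h α).1 y = 0 ∨ (h α).1 y = 1} := by
      rintro _ ⟨w, rfl⟩
      rcases lt_or_ge w α with hw | hw
      · exact Or.inl (hlt _ _ hw)
      · exact Or.inr (hle _ _ hw)
    exact (hc.closure_subset_iff.mpr hsub) (hx y)
  have hmono : ∀ α β y, α ≤ β → (h β).1 y = 1 → (h α).1 y = 1 := by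
    intro α β y hαβ hy
    have hc : IsClosed {y | (h β).1 y = 0 ∨ (h α).1 y = 1} :=
      (isClosed_eq (h β).2 continuous_const).union (isClosed_eq (h α).2 continuous_const)
    have hsub : range x ⊆ {y | (h β).1 y = 0 ∨ (h α).1 y = 1} := by
      rintro _ ⟨w, rfl⟩
      rcases lt_or_ge w β with hw | hw
      · exact Or.inl (hlt _ _ hw)
      · exact Or.inr (hle _ _ (hαβ.trans hw))
    rcases (hc.closure_subset_iff.mpr hsub) (hx y) with h2 | h2
    · rw [h2] at hy; exact absurd hy (by norm_num)
    · exact h2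
  have hU : ∀ α, ∃ S : Finset X, ∃ ε > 0, ∀ g : Cp X, (∀ s ∈ S, |g.1 s - (h α).1 s| < ε) →
      |Ψ.1 g - Ψ.1 (h α)| < 1 / 6 := by
    intro α
    exact basic_nhd (U := {g : Cp X | |Ψ.1 g - Ψ.1 (h α)| < 1 / 6})
      (isOpen_lt ((Ψ.2.sub continuous_const).abs) continuous_const) (by simp)
  choose S ε hε hS using hU
  -- choose a sequence of members of `A0`
  obtain ⟨a, haA, har⟩ := exists_seq_of_forall_finset_exists (fun α => α ∈ A0)
    (fun α α' => ∀ y ∈ S α, (∃ w, (h w).1 y ≠ 1) → (h α').1 y ≠ 1) (by
      intro s _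
      let wy : X → Set W := fun y => if hy : ∃ w, (h w).1 y ≠ 1 then {hy.choose} else ∅
      have hwy : ∀ y, (wy y).Countable := by
        intro y
        by_cases hy : ∃ w, (h w).1 y ≠ 1
        · have : wy y = {hy.choose} := dif_pos hy
          rw [this]; exact countable_singleton _
        · have : wy y = ∅ := dif_neg hy
          rw [this]; exact countable_empty
      have hC : (⋃ α ∈ (s : Set W), ⋃ y ∈ (S α : Set X), wy y).Countable :=
        s.countable_toSet.biUnion fun α _ => (S α).countable_toSet.biUnion fun y _ => hwy y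
      obtain ⟨α', hα', hab⟩ := exists_above hI h0 hC
      refine ⟨α', hα', fun α hα y hy hw h2 => ?_⟩
      have h3 : hw.choose ∈ wy y := by
        have : wy y = {hw.choose} := dif_pos hw
        rw [this]; exact mem_singleton _
      have h4 := hab hw.choose (mem_biUnion (Finset.mem_coe.mpr hα)
        (mem_biUnion (Finset.mem_coe.mpr hy) h3))
      exact hw.choose_spec (hmono _ _ y h4.le h2))
  obtain ⟨β, hβ, hab⟩ := exists_above hI h1 (countable_range a)
  -- some `a n` is not separated from `β`
  have hkey : ∃ n, ∀ y ∈ S (a n), y ∈ S β → (h (a n)).1 y = (h β).1 y := by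
    by_contra hcon
    push Not at hcon
    choose y hyα hyβ hne using hcon
    have h2 : ∀ n, (h (a n)).1 (y n) = 1 ∧ (h β).1 (y n) = 0 := by
      intro n
      rcases h01 β (y n) with hb | hb
      · refine ⟨?_, hb⟩
        rcases h01 (a n) (y n) with ha | ha
        · exact absurd (ha.trans hb.symm) (hne n)
        · exact ha
      · have := hmono (a n) β (y n) (hab _ (mem_range_self n)).le hb
        exact absurd (this.trans hb.symm) (hne n)
    have hinj : ∀ m n, m < n → y m ≠ y n := by
      intro m n hmn hmn'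
      have h3 : (h (a n)).1 (y m) ≠ 1 :=
        har m n hmn (y m) (hyα m) ⟨β, by rw [(h2 m).2]; norm_num⟩
      rw [hmn'] at h3
      exact h3 (h2 n).1
    have hinj' : Function.Injective y := by
      intro m n hmn
      rcases lt_trichotomy m n with h3 | h3 | h3
      · exact absurd hmn (hinj _ _ h3)
      · exact h3
      · exact absurd hmn.symm (hinj _ _ h3)
    have h4 : (range y).Finite := (S β).finite_toSet.subset (by
      rintro _ ⟨n, rfl⟩; exact hyβ n)
    exact infinite_range_of_injective hinj' h4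
  obtain ⟨n, hn⟩ := hkey
  obtain ⟨g, -, hg⟩ := exists_adjust (X := X) (F := ∅) isClosed_empty (h β) (S (a n) ∪ S β)
    (fun s => if s ∈ S (a n) then (h (a n)).1 s else (h β).1 s)
  refine ⟨a n, haA n, β, hβ, ?_⟩
  have hg1 : |Ψ.1 g - Ψ.1 (h (a n))| < 1 / 6 := hS _ g fun s hs => by
    rw [hg s (Finset.mem_union_left _ hs) (notMem_empty s), if_pos hs]
    simpa using hε _
  have hg2 : |Ψ.1 g - Ψ.1 (h β)| < 1 / 6 := hS _ g fun s hs => by
    rw [hg s (Finset.mem_union_right _ hs) (notMem_empty s)]
    by_cases hs' : s ∈ S (a n)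
    · rw [if_pos hs', hn s hs' hs]
      simpa using hε _
    · rw [if_neg hs']
      simpa using hε _
  rw [abs_lt] at hg1 hg2 ⊢
  constructor <;> linarith [hg1.1, hg1.2, hg2.1, hg2.2]

omit [T2Space X] in
/-- The extension lemma: on countably many `h α` a continuous function on `C_p(X)` may take
arbitrary values in `{0, 1}`. -/
lemma extension (hI : ∀ w : W, (Iic w).Countable) (u : W → Prop) (h0 : ¬{w | u w}.Countable)
    (x : W → X) (h : W → Cp X)
    (hle : ∀ v w, v ≤ w → (h v).1 (x w) = 1) (hlt : ∀ v w, w < v → (h v).1 (x w) = 0)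
    {C : Set W} (hC : C.Countable) :
    ∃ Ψ : Cp (Cp X), ∀ α ∈ C, (u α → Ψ.1 (h α) = 1) ∧ (¬u α → Ψ.1 (h α) = 0) := by
  classical
  obtain ⟨as, -, has⟩ := exists_above hI h0 hC
  -- limit points
  have hy : ∀ δ : W, ∃ y : X, (Iio δ).Nonempty → y ∈ closure (x '' Iio δ) ∧
      ∀ α < δ, (h α).1 y = 1 := by
    intro δ
    by_cases hne : (Iio δ).Nonempty
    · have : Nonempty (Iio δ) := hne.to_subtype
      have hnon : (⋂ α : Iio δ, closure (x '' Ico (α : W) δ)).Nonempty := by
        refine IsCompact.nonempty_iInter_of_directed_nonempty_isCompact_isClosed _ ?_ ?_ ?_ ?_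
        · intro α β
          refine ⟨max α β, closure_mono (image_mono ?_), closure_mono (image_mono ?_)⟩
          · exact Ico_subset_Ico_left (by exact_mod_cast le_max_left α β)
          · exact Ico_subset_Ico_left (by exact_mod_cast le_max_right α β)
        · intro α
          have hne' : (Ico (α : W) δ).Nonempty := ⟨(α : W), left_mem_Ico.mpr α.2⟩
          exact (hne'.image x).mono subset_closure
        · intro α
          exact isClosed_closure.isCompact
        · intro α
          exact isClosed_closure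
      obtain ⟨y, hy⟩ := hnon
      rw [mem_iInter] at hy
      refine ⟨y, fun _ => ⟨?_, fun α hα => ?_⟩⟩
      · obtain ⟨α, hα⟩ := hne
        exact closure_mono (image_mono fun w hw => hw.2) (hy ⟨α, hα⟩)
      · have hc : IsClosed {y | (h α).1 y = 1} := isClosed_eq (h α).2 continuous_const
        have hsub : x '' Ico α δ ⊆ {y | (h α).1 y = 1} := by
          rintro _ ⟨w, hw, rfl⟩
          exact hle _ _ hw.1
        exact (hc.closure_subset_iff.mpr hsub) (hy ⟨α, hα⟩)
    · exact ⟨x δ, fun h => absurd h hne⟩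
  choose y hy using hy
  have hJ : Countable (Iic as) := (hI as).to_subtype
  let q : Iic as ⊕ Iic as → X := Sum.elim (fun β => x β) (fun δ => y δ)
  let r : Cp X → (Iic as ⊕ Iic as → ℝ) := fun f i => f.1 (q i)
  have hr : Continuous r := continuous_pi fun i => continuous_eval (q i)
  let r' : Cp X → range r := rangeFactorization r
  have hr' : Continuous r' := hr.subtype_mk _
  let E : Set W → Set (range r) := fun B => closure (r' '' (h '' (B ∩ Iic as)))
  have hdisj : Disjoint (E {w | ¬u w}) (E {w | u w}) := by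
    rw [Set.disjoint_left]
    rintro ⟨_, f, rfl⟩ ht0 ht1
    -- values of `f`
    have hval : ∀ (B : Set W) (K : Set ℝ) (i : Iic as ⊕ Iic as), IsClosed K →
        (⟨r f, f, rfl⟩ : range r) ∈ E B → (∀ α ∈ B ∩ Iic as, (h α).1 (q i) ∈ K) →
        f.1 (q i) ∈ K := by
      intro B K i hK ht hBK
      have hc : IsClosed {t : range r | t.1 i ∈ K} :=
        hK.preimage ((continuous_apply i).comp continuous_subtype_val)
      have hsub : r' '' (h '' (B ∩ Iic as)) ⊆ {t : range r | t.1 i ∈ K} := by
        rintro _ ⟨_, ⟨α, hα, rfl⟩, rfl⟩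
        exact hBK α hα
      exact (hc.closure_subset_iff.mpr hsub) ht
    have hf01 : ∀ β : W, β ≤ as → f.1 (x β) ∈ ({0, 1} : Set ℝ) := by
      intro β hβ
      refine hval _ {0, 1} (Sum.inl ⟨β, hβ⟩) (Set.toFinite _).isClosed ht0 fun α _ => ?_
      show (h α).1 (x β) ∈ ({0, 1} : Set ℝ)
      rcases lt_or_ge β α with hw | hw
      · exact Or.inl (hlt _ _ hw)
      · exact Or.inr (hle _ _ hw)
    have hfas : f.1 (x as) = 1 := by
      refine hval _ {1} (Sum.inl ⟨as, le_refl as⟩) isClosed_singleton ht0 fun α hα => ?_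
      show (h α).1 (x as) = 1
      exact hle _ _ hα.2
    obtain ⟨δ, hδ, hmin⟩ := WellFounded.has_min (wellFounded_lt (α := W))
      {β | β ≤ as ∧ f.1 (x β) = 1} ⟨as, le_refl as, hfas⟩
    have hzero : ∀ β < δ, f.1 (x β) = 0 := by
      intro β hβ
      rcases hf01 β (hβ.le.trans hδ.1) with h2 | h2
      · exact h2
      · exact absurd hβ (hmin β ⟨hβ.le.trans hδ.1, h2⟩)
    -- the only `α` near `f` is `δ`
    have hα : ∀ B : Set W, (⟨r f, f, rfl⟩ : range r) ∈ E B → δ ∈ B := by
      intro B hB
      have hyδ : (Iio δ).Nonempty → f.1 (y δ) = 0 := by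
        intro hne
        have hc : IsClosed {z | f.1 z = 0} := isClosed_eq f.2 continuous_const
        have hsub : x '' Iio δ ⊆ {z | f.1 z = 0} := by
          rintro _ ⟨w, hw, rfl⟩
          exact hzero w hw
        exact (hc.closure_subset_iff.mpr hsub) (hy δ hne).1
      let O : Set (range r) := {t | 1 / 2 < t.1 (Sum.inl ⟨δ, hδ.1⟩) ∧
        ((Iio δ).Nonempty → t.1 (Sum.inr ⟨δ, hδ.1⟩) < 1 / 2)}
      have hO : IsOpen O := by
        have e1 : IsOpen {t : range r | 1 / 2 < t.1 (Sum.inl ⟨δ, hδ.1⟩)} :=
          isOpen_lt continuous_const ((continuous_apply _).comp continuous_subtype_val)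
        have e2 : IsOpen {t : range r | (Iio δ).Nonempty → t.1 (Sum.inr ⟨δ, hδ.1⟩) < 1 / 2} := by
          by_cases hne : (Iio δ).Nonempty
          · have : {t : range r | (Iio δ).Nonempty → t.1 (Sum.inr ⟨δ, hδ.1⟩) < 1 / 2} =
                {t : range r | t.1 (Sum.inr ⟨δ, hδ.1⟩) < 1 / 2} := by ext; simp [hne]
            rw [this]
            exact isOpen_lt ((continuous_apply _).comp continuous_subtype_val) continuous_const
          · have : {t : range r | (Iio δ).Nonempty → t.1 (Sum.inr ⟨δ, hδ.1⟩) < 1 / 2} =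
                univ := by ext; simp [hne]
            rw [this]
            exact isOpen_univ
        exact e1.inter e2
      have hfO : (⟨r f, f, rfl⟩ : range r) ∈ O := by
        refine ⟨?_, fun hne => ?_⟩
        · show 1 / 2 < f.1 (x δ)
          rw [hδ.2]; norm_num
        · show f.1 (y δ) < 1 / 2
          rw [hyδ hne]; norm_num
      obtain ⟨_, hO1, _, ⟨α, hα, rfl⟩, rfl⟩ := mem_closure_iff.mp hB O hO hfO
      have e1 : 1 / 2 < (h α).1 (x δ) := hO1.1
      have e2 : (Iio δ).Nonempty → (h α).1 (y δ) < 1 / 2 := hO1.2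
      have h3 : α ≤ δ := by
        by_contra hcon
        rw [hlt _ _ (not_le.mp hcon)] at e1
        norm_num at e1
      have h4 : ¬α < δ := by
        intro hcon
        have hne : (Iio δ).Nonempty := ⟨α, hcon⟩
        have := e2 hne
        rw [(hy δ hne).2 α hcon] at this
        norm_num at this
      have h5 : α = δ := le_antisymm h3 (not_lt.mp h4)
      rw [← h5]
      exact hα.1
    exact (hα _ ht0) (hα _ ht1)
  obtain ⟨g, hg0, hg1, -⟩ := exists_continuous_zero_one_of_isClosed
    (X := range r) isClosed_closure isClosed_closure hdisj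
  refine ⟨⟨fun f => g (r' f), g.continuous.comp hr'⟩, fun α hα => ⟨fun hu => ?_, fun hu => ?_⟩⟩
  · exact hg1 (subset_closure ⟨h α, ⟨α, ⟨hu, (has α hα).le⟩, rfl⟩, rfl⟩)
  · exact hg0 (subset_closure ⟨h α, ⟨α, ⟨hu, (has α hα).le⟩, rfl⟩, rfl⟩)

/-- No free sequence of length `ω₁` with dense range. -/
theorem core [LindelofSpace (Cp (Cp X))] (hI : ∀ w : W, (Iic w).Countable) (u : W → Prop)
    (h0 : ¬{w | u w}.Countable) (h1 : ¬{w | ¬u w}.Countable) (x : W → X) (hx : DenseRange x)
    (h : W → Cp X) (hle : ∀ v w, v ≤ w → (h v).1 (x w) = 1)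
    (hlt : ∀ v w, w < v → (h v).1 (x w) = 0) : False := by
  classical
  let c : W → ℝ := fun α => if u α then 1 else 0
  let V : W → Set (Cp (Cp X)) := fun α => {Ψ | 1 / 3 < |Ψ.1 (h α) - c α|}
  have hV : ∀ α, IsOpen (V α) := fun α =>
    isOpen_lt continuous_const ((continuous_eval (h α)).sub continuous_const).abs
  have hcov : (univ : Set (Cp (Cp X))) ⊆ ⋃ α, V α := by
    intro Ψ _
    by_contra hcon
    rw [mem_iUnion] at hcon
    push Not at hcon
    obtain ⟨α, hα, β, hβ, hab⟩ := crossing hI h0 h1 x hx h hle hlt Ψ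
    have e1 : |Ψ.1 (h α) - 1| ≤ 1 / 3 := by
      have := hcon α
      have hc : c α = 1 := if_pos hα
      simp only [V, mem_ofPred_eq, hc, not_lt] at this
      exact this
    have e2 : |Ψ.1 (h β) - 0| ≤ 1 / 3 := by
      have := hcon β
      have hc : c β = 0 := if_neg hβ
      simp only [V, mem_ofPred_eq, hc, not_lt] at this
      exact this
    rw [abs_le] at e1 e2
    rw [abs_lt] at hab
    linarith [e1.1, e2.2, hab.1, hab.2]
  obtain ⟨t, ht, hts⟩ := isLindelof_univ.elim_countable_subcover V hV hcov
  obtain ⟨Ψ, hΨ⟩ := extension hI u h0 x h hle hlt ht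
  obtain ⟨α, hα, hΨα⟩ := mem_iUnion₂.mp (hts (mem_univ Ψ))
  have : Ψ.1 (h α) = c α := by
    by_cases hu : u α
    · rw [(hΨ α hα).1 hu]; exact (if_pos hu).symm
    · rw [(hΨ α hα).2 hu]; exact (if_neg hu).symm
  simp only [V, mem_ofPred_eq, this, sub_self, abs_zero] at hΨα
  norm_num at hΨα

end core

/-- transfinite recursion with a local condition -/
lemma exists_transfinite {W : Type*} [LinearOrder W] [WellFoundedLT W] {X : Type*} [Nonempty X]
    (Q : W → (W → X) → X → Prop)
    (hloc : ∀ w f g a, (∀ u < w, f u = g u) → Q w f a → Q w g a)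
    (hex : ∀ w f, (∀ u < w, Q u f (f u)) → ∃ a, Q w f a) :
    ∃ x : W → X, ∀ w, Q w x (x w) := by
  classical
  obtain ⟨x0⟩ := ‹Nonempty X›
  let G : W → (W → X) → X := fun w f => if hw : ∃ a, Q w f a then hw.choose else x0
  have hG : ∀ w f, (∃ a, Q w f a) → Q w f (G w f) := by
    intro w f hw
    have : G w f = hw.choose := dif_pos hw
    rw [this]
    exact hw.choose_spec
  let R : (w : W) → ((u : W) → u < w → X) → X := fun w rec =>
    G w fun u => if hu : u < w then rec u hu else x0
  let x : W → X := (wellFounded_lt (α := W)).fix R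
  have hx : ∀ w, x w = G w fun u => if u < w then x u else x0 := by
    intro w
    have h1 : x w = R w fun u _ => x u := (wellFounded_lt (α := W)).fix_eq R w
    rw [h1]
    rfl
  refine ⟨x, fun w => ?_⟩
  induction w using WellFoundedLT.induction with
  | ind w ih =>
    let f : W → X := fun u => if u < w then x u else x0
    have hf : ∀ u < w, f u = x u := fun u hu => if_pos hu
    have h1 : ∀ u < w, Q u f (f u) := by
      intro u hu
      rw [hf u hu]
      exact hloc u x f (x u) (fun v hv => (hf v (hv.trans hu)).symm) (ih u hu)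
    have h2 := hG w f (hex w f h1)
    rw [hx w]
    exact hloc w f x _ hf h2

/-- Let `X` be compact Hausdorff with `C_p(C_p(X))` Lindelöf.  Then `X` has countable tightness. -/
theorem tight {X : Type*} [TopologicalSpace X] [CompactSpace X] [T2Space X]
    [LindelofSpace (Cp (Cp X))] (A : Set X) (z : X) (hz : z ∈ closure A) :
    ∃ B ⊆ A, B.Countable ∧ z ∈ closure B := by
  classical
  by_contra hcon
  push Not at hcon
  let A' : Set X := {a | ∃ B ⊆ A, B.Countable ∧ a ∈ closure B}
  -- `A'` is `ω`-closed
  have hA' : ∀ B ⊆ A', B.Countable → z ∉ closure B := by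
    intro B hB hBc hzB
    have hB' : ∀ b ∈ B, ∃ D : Set X, D ⊆ A ∧ D.Countable ∧ b ∈ closure D := fun b hb => hB hb
    choose! D hDA hDc hDa using hB'
    have hBD : B ⊆ closure (⋃ b ∈ B, D b) := by
      intro b hb
      exact closure_mono (subset_biUnion_of_mem (u := D) hb) (hDa b hb)
    refine hcon (⋃ b ∈ B, D b) (iUnion₂_subset fun b hb => hDA b hb)
      (hBc.biUnion fun b hb => hDc b hb) ?_
    exact (isClosed_closure.closure_subset_iff.mpr hBD) hzB
  have hh : ∀ B : Set X, ∃ k : C(X, ℝ), (B ⊆ A' → B.Countable → (∀ b ∈ B, k b = 0) ∧ k z = 1) := by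
    intro B
    by_cases hB : B ⊆ A' ∧ B.Countable
    · have h1 : Disjoint (closure B) {z} := by
        rw [disjoint_singleton_right]
        exact hA' B hB.1 hB.2
      obtain ⟨k, hk0, hk1, -⟩ := exists_continuous_zero_one_of_isClosed isClosed_closure
        isClosed_singleton h1
      exact ⟨k, fun _ _ => ⟨fun b hb => hk0 (subset_closure hb), hk1 rfl⟩⟩
    · exact ⟨0, fun h1 h2 => absurd ⟨h1, h2⟩ hB⟩
  choose k hk using hh
  let W : Type := (Cardinal.aleph 1).ord.ToType
  have hIio : ∀ w : W, (Iio w).Countable := by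
    intro w
    have h1 := Cardinal.mk_Iio_toType_ord_lt (c := Cardinal.aleph 1) w
    rw [← Set.countable_coe_iff, ← Cardinal.mk_le_aleph0_iff]
    have h2 : Cardinal.mk (Iio w) < Order.succ Cardinal.aleph0 := by
      rw [Cardinal.succ_aleph0]; exact h1
    exact Order.lt_succ_iff.mp h2
  have hIic : ∀ w : W, (Iic w).Countable := by
    intro w
    rw [← Iio_union_right]
    exact (hIio w).union (countable_singleton w)
  have : Nonempty X := ⟨z⟩
  obtain ⟨x, hx⟩ := exists_transfinite (W := W)
    (fun w f a => a ∈ A' ∧ ∀ v ≤ w, k (f '' Iio v) a = 1) (by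
      intro w f g a hfg ⟨h1, h2⟩
      refine ⟨h1, fun v hv => ?_⟩
      have : g '' Iio v = f '' Iio v :=
        image_congr fun u hu => (hfg u (lt_of_lt_of_le hu hv)).symm
      rw [this]
      exact h2 v hv) (by
      intro w f hf
      -- the countable family of functions
      obtain ⟨v, hv⟩ := (hIic w).exists_eq_range ⟨w, mem_Iic.mpr le_rfl⟩
      have hkz : ∀ i, k (f '' Iio (v i)) z = 1 := by
        intro i
        refine (hk _ ?_ ((hIio _).image _)).2
        rintro _ ⟨u, hu, rfl⟩
        have h1 : v i ≤ w := by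
          have : v i ∈ Iic w := hv ▸ mem_range_self i
          exact this
        exact (hf u (lt_of_lt_of_le hu h1)).1
      have hap : ∀ n : ℕ, ∃ a ∈ A, ∀ i ≤ n, |k (f '' Iio (v i)) a - 1| < 1 / ((n : ℝ) + 1) := by
        intro n
        have hO : IsOpen {a : X | ∀ i ≤ n, |k (f '' Iio (v i)) a - 1| < 1 / ((n : ℝ) + 1)} := by
          have : {a : X | ∀ i ≤ n, |k (f '' Iio (v i)) a - 1| < 1 / ((n : ℝ) + 1)} =
              ⋂ i ∈ Iic n, {a : X | |k (f '' Iio (v i)) a - 1| < 1 / ((n : ℝ) + 1)} := by
            ext; simp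
          rw [this]
          exact (finite_Iic n).isOpen_biInter fun i _ =>
            isOpen_lt (((k _).continuous.sub continuous_const).abs) continuous_const
        obtain ⟨a, ha, haA⟩ := mem_closure_iff.mp hz _ hO (by
          intro i _
          rw [hkz i]
          simp only [sub_self, abs_zero]
          positivity)
        exact ⟨a, haA, ha⟩
      choose a haA ha using hap
      have hnon : (⋂ n : ℕ, closure (a '' Ici n)).Nonempty := by
        refine IsCompact.nonempty_iInter_of_directed_nonempty_isCompact_isClosed _ ?_ ?_ ?_ ?_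
        · intro m n
          exact ⟨max m n, closure_mono (image_mono (Ici_subset_Ici.mpr (le_max_left m n))),
            closure_mono (image_mono (Ici_subset_Ici.mpr (le_max_right m n)))⟩
        · intro n
          exact ((nonempty_Ici (a := n)).image a).mono subset_closure
        · intro n
          exact isClosed_closure.isCompact
        · intro n
          exact isClosed_closure
      obtain ⟨b, hb⟩ := hnon
      rw [mem_iInter] at hb
      refine ⟨b, ⟨range a, range_subset_iff.mpr haA, countable_range a,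
        closure_mono (image_subset_range _ _) (hb 0)⟩, fun v' hv' => ?_⟩
      obtain ⟨i, rfl⟩ : v' ∈ range v := hv ▸ hv'
      have hbound : ∀ n : ℕ, |k (f '' Iio (v i)) b - 1| ≤ 1 / ((n : ℝ) + 1) := by
        intro n
        have hc : IsClosed {b : X | |k (f '' Iio (v i)) b - 1| ≤ 1 / ((n : ℝ) + 1)} :=
          isClosed_le (((k _).continuous.sub continuous_const).abs) continuous_const
        have hsub : a '' Ici (max i n) ⊆
            {b : X | |k (f '' Iio (v i)) b - 1| ≤ 1 / ((n : ℝ) + 1)} := by
          rintro _ ⟨m, hm, rfl⟩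
          have h1 : max i n ≤ m := hm
          refine (ha m i ((le_max_left i n).trans h1)).le.trans ?_
          have h2 : (n : ℝ) ≤ m := by exact_mod_cast (le_max_right i n).trans h1
          exact one_div_le_one_div_of_le (by positivity) (by linarith)
        exact (hc.closure_subset_iff.mpr hsub) (hb _)
      have h0 : |k (f '' Iio (v i)) b - 1| ≤ 0 :=
        ge_of_tendsto' tendsto_one_div_add_atTop_nhds_zero_nat hbound
      have h1 := abs_nonpos_iff.mp h0
      linarith)
  -- restrict to the closure of the range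
  let F : Set X := closure (range x)
  have hF : IsClosed F := isClosed_closure
  have : CompactSpace F := isCompact_iff_compactSpace.mp hF.isCompact
  have : LindelofSpace (Cp (Cp F)) := lindelof_CpCp_closed hF
  have hxA' : ∀ w, x w ∈ A' := fun w => (hx w).1
  -- colours
  have hW : Cardinal.mk W = Cardinal.aleph 1 := Cardinal.mk_ord_toType _
  have hWW : Nonempty (W ⊕ W ≃ W) := by
    rw [← Cardinal.eq]
    simp only [Cardinal.mk_sum, Cardinal.lift_id, hW]
    exact Cardinal.add_eq_self (Cardinal.aleph0_le_aleph 1)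
  obtain ⟨φ⟩ := hWW
  have hWunc : ¬(univ : Set W).Countable := by
    intro hc
    have h1 : Cardinal.mk W ≤ Cardinal.aleph0 := Cardinal.mk_le_aleph0_iff.mpr
      (countable_univ_iff.mp hc)
    rw [hW] at h1
    exact absurd h1 (not_le.mpr (Cardinal.aleph0_lt_aleph_one))
  let u : W → Prop := fun w => (φ.symm w).isLeft = true
  have h0 : ¬{w | u w}.Countable := by
    intro hc
    refine hWunc ?_
    have h1 : (univ : Set W) ⊆ (fun w => φ (Sum.inl w)) ⁻¹' {w | u w} := by
      intro w _
      simp [u]
    refine (hc.preimage_of_injOn (f := fun w => φ (Sum.inl w)) ?_).mono h1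
    intro a _ b _ hab
    exact Sum.inl.inj (φ.injective hab)
  have h1 : ¬{w | ¬u w}.Countable := by
    intro hc
    refine hWunc ?_
    have h1 : (univ : Set W) ⊆ (fun w => φ (Sum.inr w)) ⁻¹' {w | ¬u w} := by
      intro w _
      simp [u]
    refine (hc.preimage_of_injOn (f := fun w => φ (Sum.inr w)) ?_).mono h1
    intro a _ b _ hab
    exact Sum.inr.inj (φ.injective hab)
  refine core (X := F) (W := W) hIic u h0 h1 (fun w => ⟨x w, subset_closure (mem_range_self w)⟩)
    ?_ (fun w => res F ⟨k (x '' Iio w), (k _).continuous⟩) ?_ ?_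
  · intro y
    rw [closure_subtype]
    have : (Subtype.val '' range fun w => (⟨x w, subset_closure (mem_range_self w)⟩ : F)) =
        range x := by
      rw [← range_comp]; rfl
    rw [this]
    exact y.2
  · intro v w hvw
    exact (hx w).2 v hvw
  · intro v w hwv
    refine (hk (x '' Iio v) ?_ ((hIio v).image x)).1 (x w) ⟨w, hwv, rfl⟩
    rintro _ ⟨u, _, rfl⟩
    exact hxA' u

end Pool.CpExtent
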